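import Mathlib
import Pool.Agent.Y309.VK.DA

/-!
# The joint law of finitely many points of the circle, at a finite resolution, from exponential sums
-/

set_option autoImplicit false

namespace Pool.Agent.V5helper45.RB

open Finset
open Pool.Agent.Y309.VK (ea ea_zero ea_add ea_sum ea_conj)

lemma norm_ea (x : ℝ) : ‖ea x‖ = 1 := by
  unfold ea
  have : 2 * (Real.pi : ℂ) * Complex.I * (x : ℂ) = ((2 * Real.pi * x : ℝ) : ℂ) * Complex.I := by
    push_cast
    ring
  rw [this]
  exact Complex.norm_exp_ofReal_mul_I _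

lemma ea_int (z : ℤ) : ea z = 1 := by
  unfold ea
  rw [Complex.exp_eq_one_iff]
  exact ⟨z, by push_cast; ring⟩

lemma ea_nat_mul (k : ℕ) (x : ℝ) : ea (k * x) = ea x ^ k := by
  unfold ea
  rw [← Complex.exp_nat_mul]
  congr 1
  push_cast
  ring

lemma norm_ea_sub_one (x : ℝ) : ‖ea x - 1‖ = 2 * |Real.sin (Real.pi * x)| := by
  have h1 : ea x - 1 = ea (x / 2) * (ea (x / 2) - ea (-(x / 2))) := by
    rw [mul_sub, ← ea_add, ← ea_add]
    have e1 : x / 2 + x / 2 = x := by ring
    have e2 : x / 2 + -(x / 2) = 0 := by ring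
    rw [e1, e2, ea_zero]
  rw [h1, norm_mul, norm_ea, one_mul]
  have h2 : ea (x / 2) - ea (-(x / 2)) = 2 * Complex.I * (Real.sin (Real.pi * x) : ℂ) := by
    unfold ea
    push_cast
    rw [Complex.sin]
    have e1 : 2 * (Real.pi : ℂ) * Complex.I * ((x : ℂ) / 2) = (Real.pi : ℂ) * x * Complex.I := by ring
    have e2 : 2 * (Real.pi : ℂ) * Complex.I * (-((x : ℂ) / 2)) = -((Real.pi : ℂ) * x) * Complex.I := by
      ring
    rw [e1, e2]
    have hI := Complex.I_sq
    linear_combination (-(Complex.exp (-((Real.pi : ℂ) * x) * Complex.I)) +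
      Complex.exp ((Real.pi : ℂ) * x * Complex.I)) * hI
  rw [h2, norm_mul, norm_mul, Complex.norm_I, Complex.norm_real, Real.norm_eq_abs]
  norm_num

lemma sin_lb {x δ : ℝ} (h : ∀ w : ℤ, δ ≤ |x - w|) : 2 * δ ≤ |Real.sin (Real.pi * x)| := by
  have h1 := h (round x)
  have h2 : |x - round x| ≤ 1 / 2 := abs_sub_round x
  have hpi := Real.pi_pos
  have h3 : |Real.pi * (x - round x)| ≤ Real.pi / 2 := by
    rw [abs_mul, abs_of_pos hpi]
    nlinarith
  have h4 := Real.mul_abs_le_abs_sin h3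
  have h5 : |Real.sin (Real.pi * (x - round x))| = |Real.sin (Real.pi * x)| := by
    have e : Real.pi * (x - round x) = Real.pi * x - (round x : ℤ) * Real.pi := by ring
    rw [e, Real.sin_sub_int_mul_pi, abs_mul, abs_zpow, abs_neg, abs_one, one_zpow, one_mul]
  rw [h5, abs_mul, abs_of_pos hpi] at h4
  have e : 2 / Real.pi * (Real.pi * |x - round x|) = 2 * |x - round x| := by
    field_simp
  rw [e] at h4
  linarith

lemma geom_le {x δ : ℝ} (hδ : 0 < δ) (h : ∀ w : ℤ, δ ≤ |x - w|) (R : ℕ) :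
    ‖∑ k ∈ range R, ea (k * x)‖ ≤ 1 / (2 * δ) := by
  have h1 : (∑ k ∈ range R, ea (k * x)) * (ea x - 1) = ea x ^ R - 1 := by
    simp only [ea_nat_mul]
    exact geom_sum_mul (ea x) R
  have h2 : ‖∑ k ∈ range R, ea (k * x)‖ * ‖ea x - 1‖ ≤ 2 := by
    rw [← norm_mul, h1]
    refine (norm_sub_le _ _).trans ?_
    rw [norm_pow, norm_ea]
    norm_num
  have h3 : 4 * δ ≤ ‖ea x - 1‖ := by
    rw [norm_ea_sub_one]
    have := sin_lb h
    linarith
  rw [le_div_iff₀ (by positivity)]
  have h4 := mul_le_mul_of_nonneg_left h3 (norm_nonneg (∑ k ∈ range R, ea (k * x)))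
  linarith

/-- the kernel of Fejér -/
noncomputable def FR (R : ℕ) (x : ℝ) : ℝ := ‖∑ k ∈ range R, ea (k * x)‖ ^ 2 / R

lemma FR_nonneg (R : ℕ) (x : ℝ) : 0 ≤ FR R x := by
  unfold FR
  positivity

lemma FR_le {x δ : ℝ} (hδ : 0 < δ) (h : ∀ w : ℤ, δ ≤ |x - w|) {R : ℕ} (hR : 1 ≤ R) :
    FR R x ≤ 1 / (4 * δ ^ 2 * R) := by
  have hR' : (0 : ℝ) < R := by exact_mod_cast hR
  unfold FR
  have h1 := pow_le_pow_left₀ (norm_nonneg _) (geom_le hδ h R) 2
  rw [div_le_div_iff₀ hR' (by positivity)]
  have e : (1 / (2 * δ)) ^ 2 * (4 * δ ^ 2 * R) = 1 * R := by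
    field_simp
    ring
  rw [← e]
  exact mul_le_mul_of_nonneg_right h1 (by positivity)

lemma ea_re (x : ℝ) : (ea x).re = Real.cos (2 * Real.pi * x) := by
  unfold ea
  have : 2 * (Real.pi : ℂ) * Complex.I * (x : ℂ) = ((2 * Real.pi * x : ℝ) : ℂ) * Complex.I := by
    push_cast
    ring
  rw [this, Complex.exp_ofReal_mul_I_re]

lemma FR_ge {x : ℝ} {z : ℤ} {J : ℕ} (hJ : 1 ≤ J) (h : |x - z| ≤ 1 / (6 * J)) :
    (J : ℝ) / 4 ≤ FR J x := by
  have hJ' : (0 : ℝ) < J := by exact_mod_cast hJ
  have h1 : (J : ℝ) / 2 ≤ ‖∑ k ∈ range J, ea (k * x)‖ := by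
    refine le_trans ?_ (Complex.re_le_norm _)
    rw [Complex.re_sum]
    have h2 : ∀ k ∈ range J, (1 : ℝ) / 2 ≤ (ea (k * x)).re := by
      intro k hk
      have hk' : (k : ℝ) ≤ J := by exact_mod_cast (Finset.mem_range.1 hk).le
      have e1 : ea (k * x) = ea (k * (x - z)) := by
        have : (k : ℝ) * x = k * (x - z) + ((k * z : ℤ) : ℝ) := by push_cast; ring
        rw [this, ea_add, ea_int, mul_one]
      rw [e1, ea_re]
      have e2 : |2 * Real.pi * (k * (x - z))| ≤ Real.pi / 3 := by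
        rw [abs_mul, abs_of_pos (by positivity : 0 < 2 * Real.pi), abs_mul, Nat.abs_cast]
        have h3 : (k : ℝ) * |x - z| ≤ J * (1 / (6 * J)) :=
          mul_le_mul hk' h (abs_nonneg _) hJ'.le
        have h4 : (J : ℝ) * (1 / (6 * J)) = 1 / 6 := by field_simp
        rw [h4] at h3
        have := Real.pi_pos
        nlinarith
      rw [← Real.cos_abs, ← Real.cos_pi_div_three]
      apply Real.cos_le_cos_of_nonneg_of_le_pi (abs_nonneg _) _ e2
      have := Real.pi_pos
      linarith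
    have h3 := Finset.card_nsmul_le_sum _ _ _ h2
    rw [Finset.card_range, nsmul_eq_mul] at h3
    linarith
  unfold FR
  rw [div_le_div_iff₀ (by norm_num) hJ']
  have := pow_le_pow_left₀ (by positivity) h1 2
  nlinarith

lemma FR_expand (R : ℕ) (x : ℝ) :
    ((FR R x : ℝ) : ℂ) = (1 / (R : ℂ)) * ∑ p ∈ range R ×ˢ range R, ea (((p.1 : ℝ) - p.2) * x) := by
  unfold FR
  have h1 : ((‖∑ k ∈ range R, ea (k * x)‖ ^ 2 : ℝ) : ℂ) =
      ∑ p ∈ range R ×ˢ range R, ea (((p.1 : ℝ) - p.2) * x) := by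
    rw [Complex.ofReal_pow, ← Complex.mul_conj', map_sum, Finset.sum_mul_sum, Finset.sum_product]
    refine Finset.sum_congr rfl fun j _ => Finset.sum_congr rfl fun k _ => ?_
    rw [ea_conj, ← ea_add]
    congr 1
    ring
  rw [Complex.ofReal_div, h1]
  push_cast
  ring

lemma diag_filter (R : ℕ) :
    (range R ×ˢ range R).filter (fun p => p.1 = p.2) = (range R).diag := by
  ext ⟨a, b⟩
  simp only [Finset.mem_filter, Finset.mem_product, Finset.mem_diag]
  constructor
  · rintro ⟨⟨h1, _⟩, h3⟩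
    exact ⟨h1, h3⟩
  · rintro ⟨h1, h3⟩
    exact ⟨⟨h1, h3 ▸ h1⟩, h3⟩

lemma sum_ea_zero {Q : ℕ} {n : ℤ} (hn : n ≠ 0) (hnQ : |n| < Q) :
    ∑ b ∈ range Q, ea ((n : ℝ) * ((b : ℝ) / Q)) = 0 := by
  have hQ : (0 : ℝ) < Q := by
    have : (0 : ℤ) < Q := lt_of_le_of_lt (abs_nonneg n) hnQ
    exact_mod_cast this
  have h1 : ∀ b ∈ range Q, ea ((n : ℝ) * ((b : ℝ) / Q)) = ea ((n : ℝ) / Q) ^ b := by
    intro b _
    rw [← ea_nat_mul]
    congr 1
    ring
  rw [Finset.sum_congr rfl h1]
  have h2 := geom_sum_mul (ea ((n : ℝ) / Q)) Q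
  have h3 : ea ((n : ℝ) / Q) ^ Q = 1 := by
    rw [← ea_nat_mul]
    have : (Q : ℝ) * ((n : ℝ) / Q) = (n : ℝ) := by field_simp
    rw [this, ea_int]
  rw [h3, sub_self] at h2
  rcases mul_eq_zero.1 h2 with h4 | h4
  · exact h4
  · exfalso
    have h5 : ‖ea ((n : ℝ) / Q) - 1‖ = 0 := by rw [h4, norm_zero]
    rw [norm_ea_sub_one] at h5
    have h6 : (1 : ℝ) / Q ≤ 0 := by
      have h7 : ∀ w : ℤ, (1 : ℝ) / Q ≤ |(n : ℝ) / Q - w| := by
        intro w
        have h8 : (n : ℝ) / Q - w = ((n - w * Q : ℤ) : ℝ) / Q := by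
          push_cast
          field_simp
        rw [h8, abs_div, abs_of_pos hQ]
        apply div_le_div_of_nonneg_right _ hQ.le
        rw [← Int.cast_abs]
        have h9 : n - w * Q ≠ 0 := by
          intro h0
          have h10 : n = w * Q := by linarith
          by_cases hw : w = 0
          · rw [hw, zero_mul] at h10
            exact hn h10
          · have h11 : (1 : ℤ) ≤ |w| := Int.one_le_abs hw
            rw [h10, abs_mul, Nat.abs_cast] at hnQ
            have h12 : (0 : ℤ) < Q := by exact_mod_cast hQ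
            nlinarith
        exact_mod_cast Int.one_le_abs h9
      have h8 := sin_lb h7
      linarith
    have h7 : (0 : ℝ) < 1 / Q := by positivity
    linarith

lemma FR_sum {R Q : ℕ} (hR : 1 ≤ R) (hRQ : R ≤ Q) (y : ℝ) :
    ∑ b ∈ range Q, FR R ((b : ℝ) / Q - y) = Q := by
  have hR' : (R : ℂ) ≠ 0 := by exact_mod_cast (by omega : R ≠ 0)
  have h1 : ((∑ b ∈ range Q, FR R ((b : ℝ) / Q - y) : ℝ) : ℂ) = ((Q : ℝ) : ℂ) := by
    rw [Complex.ofReal_sum]
    simp only [FR_expand]
    rw [← Finset.mul_sum, Finset.sum_comm]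
    have h2 : ∀ p ∈ range R ×ˢ range R, ∑ b ∈ range Q, ea (((p.1 : ℝ) - p.2) * ((b : ℝ) / Q - y)) =
        if p.1 = p.2 then (Q : ℂ) else 0 := by
      intro p hp
      rw [Finset.mem_product, Finset.mem_range, Finset.mem_range] at hp
      split_ifs with h
      · rw [h]
        simp only [sub_self, zero_mul, ea_zero, Finset.sum_const, Finset.card_range, nsmul_eq_mul,
          mul_one]
      · have h3 : ∀ b ∈ range Q, ea (((p.1 : ℝ) - p.2) * ((b : ℝ) / Q - y)) =
            ea ((((p.1 : ℤ) - p.2 : ℤ) : ℝ) * ((b : ℝ) / Q)) * ea (-(((p.1 : ℝ) - p.2) * y)) := by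
          intro b _
          rw [← ea_add]
          congr 1
          push_cast
          ring
        rw [Finset.sum_congr rfl h3, ← Finset.sum_mul, sum_ea_zero, zero_mul]
        · omega
        · rw [abs_lt]
          constructor <;> omega
    rw [Finset.sum_congr rfl h2, ← Finset.sum_filter]
    have h4 : (range R ×ˢ range R).filter (fun p => p.1 = p.2) = (range R).diag := diag_filter R
    rw [h4, Finset.sum_const, Finset.diag_card, Finset.card_range, nsmul_eq_mul]
    field_simp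
    push_cast
    ring
  exact_mod_cast h1

lemma sum_rows (f : ℕ → ℝ) (R : ℕ) (L : ℕ) :
    ∑ c ∈ range L, ∑ b ∈ range R, f (c * R + b) = ∑ n ∈ range (L * R), f n := by
  induction L with
  | zero => simp
  | succ L ih =>
    rw [Finset.sum_range_succ, ih, Nat.add_mul, one_mul, Finset.sum_range_add]

/-- a smooth version of the indicator function of `[c / L, (c + 1) / L)` -/
noncomputable def psi (L R c : ℕ) (y : ℝ) : ℝ :=
  (1 / ((L : ℝ) * R)) * ∑ b ∈ range R, FR R (((c * R + b : ℕ) : ℝ) / ((L * R : ℕ) : ℝ) - y)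

lemma psi_nonneg (L R c : ℕ) (y : ℝ) : 0 ≤ psi L R c y := by
  unfold psi
  apply mul_nonneg (by positivity)
  exact Finset.sum_nonneg fun b _ => FR_nonneg _ _

lemma psi_sum {L R : ℕ} (hL : 1 ≤ L) (hR : 1 ≤ R) (y : ℝ) : ∑ c ∈ range L, psi L R c y = 1 := by
  unfold psi
  rw [← Finset.mul_sum, sum_rows (fun n => FR R ((n : ℝ) / ((L * R : ℕ) : ℝ) - y)) R L,
    FR_sum hR (Nat.le_mul_of_pos_left _ hL)]
  push_cast
  have h1 : (L : ℝ) ≠ 0 := by exact_mod_cast (by omega : L ≠ 0)
  have h2 : (R : ℝ) ≠ 0 := by exact_mod_cast (by omega : R ≠ 0)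
  field_simp

/-- the coefficients of `psi` -/
noncomputable def ac (L R c : ℕ) (p : ℕ × ℕ) : ℂ :=
  (1 / ((L : ℂ) * R * R)) * ∑ b ∈ range R,
    ea (((p.1 : ℝ) - p.2) * (((c * R + b : ℕ) : ℝ) / ((L * R : ℕ) : ℝ)))

lemma psi_expand (L R c : ℕ) (y : ℝ) : ((psi L R c y : ℝ) : ℂ) =
    ∑ p ∈ range R ×ˢ range R, ac L R c p * ea (-(((p.1 : ℝ) - p.2) * y)) := by
  unfold psi ac
  rw [Complex.ofReal_mul, Complex.ofReal_sum]
  simp only [FR_expand]
  rw [← Finset.mul_sum, Finset.sum_comm]
  have h1 : ∀ p ∈ range R ×ˢ range R, ∑ b ∈ range R,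
      ea (((p.1 : ℝ) - p.2) * (((c * R + b : ℕ) : ℝ) / ((L * R : ℕ) : ℝ) - y)) =
      (∑ b ∈ range R, ea (((p.1 : ℝ) - p.2) * (((c * R + b : ℕ) : ℝ) / ((L * R : ℕ) : ℝ)))) *
        ea (-(((p.1 : ℝ) - p.2) * y)) := by
    intro p _
    rw [Finset.sum_mul]
    refine Finset.sum_congr rfl fun b _ => ?_
    rw [← ea_add]
    congr 1
    ring
  rw [Finset.sum_congr rfl h1, Finset.mul_sum, Finset.mul_sum]
  refine Finset.sum_congr rfl fun p _ => ?_
  push_cast
  ring

lemma ac_norm {L R : ℕ} (hR : 1 ≤ R) (c : ℕ) (p : ℕ × ℕ) : ‖ac L R c p‖ ≤ 1 / ((L : ℝ) * R) := by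
  unfold ac
  rw [norm_mul]
  have h1 : ‖(1 / ((L : ℂ) * R * R))‖ = 1 / ((L : ℝ) * R * R) := by
    rw [norm_div, norm_one, norm_mul, norm_mul, Complex.norm_natCast, Complex.norm_natCast]
  have h2 : ‖∑ b ∈ range R, ea (((p.1 : ℝ) - p.2) * (((c * R + b : ℕ) : ℝ) / ((L * R : ℕ) : ℝ)))‖ ≤ R := by
    refine (norm_sum_le _ _).trans ?_
    simp only [norm_ea, Finset.sum_const, Finset.card_range, nsmul_eq_mul, mul_one]
    exact le_rfl
  rw [h1]
  have hR' : (R : ℝ) ≠ 0 := by exact_mod_cast (by omega : R ≠ 0)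
  calc 1 / ((L : ℝ) * R * R) * ‖∑ b ∈ range R, ea (((p.1 : ℝ) - p.2) *
        (((c * R + b : ℕ) : ℝ) / ((L * R : ℕ) : ℝ)))‖ ≤ 1 / ((L : ℝ) * R * R) * R :=
        mul_le_mul_of_nonneg_left h2 (by positivity)
    _ = 1 / ((L : ℝ) * R) := by
      field_simp

lemma ac_diag {L R : ℕ} (hR : 1 ≤ R) (c : ℕ) {p : ℕ × ℕ} (hp : p.1 = p.2) :
    ac L R c p = 1 / ((L : ℂ) * R) := by
  unfold ac
  rw [hp]
  have hR' : (R : ℂ) ≠ 0 := by exact_mod_cast (by omega : R ≠ 0)
  simp only [sub_self, zero_mul, ea_zero, Finset.sum_const, Finset.card_range, nsmul_eq_mul, mul_one]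
  field_simp

/-- away from the ends of the cells `psi` of the right cell is nearly one -/
lemma psi_cell {L R J : ℕ} (hL : 1 ≤ L) (hR : 1 ≤ R) (hJ : 1 ≤ J) {y : ℝ}
    (h : ∀ z : ℤ, 1 / (6 * (J : ℝ)) < |L * y - z|) :
    1 - psi L R ⌊L * Int.fract y⌋₊ y ≤ 9 * (J : ℝ) ^ 2 * L ^ 2 / R := by
  have hL' : (0 : ℝ) < L := by exact_mod_cast hL
  have hR' : (0 : ℝ) < R := by exact_mod_cast hR
  have hJ' : (0 : ℝ) < J := by exact_mod_cast hJ
  set c₀ := ⌊L * Int.fract y⌋₊ with hc₀
  have hfr0 : 0 ≤ L * Int.fract y := mul_nonneg hL'.le (Int.fract_nonneg y)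
  have hfr1 : L * Int.fract y < L := by
    have := mul_lt_mul_of_pos_left (Int.fract_lt_one y) hL'
    linarith
  have hc₀L : c₀ < L := by
    rw [hc₀, Nat.floor_lt hfr0]
    exact hfr1
  rw [← psi_sum hL hR y, ← Finset.add_sum_erase _ _ (Finset.mem_range.2 hc₀L)]
  rw [add_sub_cancel_left]
  have h1 : ∀ c ∈ (range L).erase c₀, psi L R c y ≤ 9 * (J : ℝ) ^ 2 * L ^ 2 / R * (1 / L) := by
    intro c hc
    rw [Finset.mem_erase, Finset.mem_range] at hc
    have h2 : ∀ b ∈ range R, FR R (((c * R + b : ℕ) : ℝ) / ((L * R : ℕ) : ℝ) - y) ≤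
        9 * (J : ℝ) ^ 2 * L ^ 2 / R := by
      intro b hb
      rw [Finset.mem_range] at hb
      have hbR : (b : ℝ) < R := by exact_mod_cast hb
      have hkey : ∀ w : ℤ, 1 / (6 * (J : ℝ) * L) ≤
          |((c * R + b : ℕ) : ℝ) / ((L * R : ℕ) : ℝ) - y - w| := by
        intro w
        by_contra hcon
        push Not at hcon
        set u : ℝ := L * (y + w) with hu
        set v : ℝ := c + (b : ℝ) / R with hv
        have hv0 : (c : ℝ) ≤ v := by
          rw [hv]
          have : 0 ≤ (b : ℝ) / R := by positivity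
          linarith
        have hv1 : v < c + 1 := by
          rw [hv]
          have : (b : ℝ) / R < 1 := by rw [div_lt_one hR']; exact hbR
          linarith
        have huv : |v - u| < 1 / (6 * J) := by
          have e1 : v - u = L * (((c * R + b : ℕ) : ℝ) / ((L * R : ℕ) : ℝ) - y - w) := by
            rw [hu, hv]
            push_cast
            field_simp
            ring
          rw [e1, abs_mul, abs_of_pos hL']
          have h3 := mul_lt_mul_of_pos_left hcon hL'
          have h4 : (L : ℝ) * (1 / (6 * J * L)) = 1 / (6 * J) := by field_simp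
          linarith
        have hint : ∀ z : ℤ, ¬ (|u - z| ≤ |v - u|) := by
          intro z hz
          have h3 := h (z - L * w)
          have e1 : (L : ℝ) * y - ((z - L * w : ℤ) : ℝ) = u - z := by
            rw [hu]
            push_cast
            ring
          rw [e1] at h3
          linarith
        rcases lt_or_ge u c with h3 | h3
        · apply hint c
          push_cast
          rw [abs_of_neg (by linarith), abs_of_pos (by linarith)]
          linarith
        · rcases lt_or_ge u (c + 1) with h4 | h4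
          · have h5 : ⌊u⌋ = c := by
              rw [Int.floor_eq_iff]
              push_cast
              exact ⟨h3, h4⟩
            have h6 : u = L * Int.fract y + ((L * (⌊y⌋ + w) : ℤ) : ℝ) := by
              rw [hu]
              push_cast
              have := Int.floor_add_fract y
              rw [← this]
              simp only [Int.floor_intCast_add, Int.floor_fract, add_zero, Int.fract_intCast_add,
                Int.fract_fract]
              ring
            rw [h6, Int.floor_add_intCast] at h5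
            have h7 : ⌊(L : ℝ) * Int.fract y⌋ = (c₀ : ℤ) := by
              rw [hc₀]
              exact (Int.natCast_floor_eq_floor hfr0).symm
            rw [h7] at h5
            have h8 : ⌊y⌋ + w = 0 := by
              by_contra h9
              have h10 : (1 : ℤ) ≤ |⌊y⌋ + w| := Int.one_le_abs h9
              have h11 : (L : ℤ) * (⌊y⌋ + w) = c - c₀ := by linarith
              have h12 : |(L : ℤ) * (⌊y⌋ + w)| < L := by
                rw [h11, abs_lt]
                constructor <;> omega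
              rw [abs_mul, Nat.abs_cast] at h12
              have hL2 : (0 : ℤ) < L := by exact_mod_cast hL
              nlinarith
            rw [h8, mul_zero, add_zero] at h5
            exact hc.1 (by exact_mod_cast h5.symm)
          · apply hint (c + 1)
            push_cast
            rw [abs_of_nonneg (by linarith), abs_of_neg (by linarith)]
            linarith
      refine (FR_le (by positivity) hkey hR).trans (le_of_eq ?_)
      field_simp
      ring
    unfold psi
    calc (1 / ((L : ℝ) * R)) * ∑ b ∈ range R, FR R (((c * R + b : ℕ) : ℝ) / ((L * R : ℕ) : ℝ) - y) ≤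
        (1 / ((L : ℝ) * R)) * (R * (9 * (J : ℝ) ^ 2 * L ^ 2 / R)) := by
          apply mul_le_mul_of_nonneg_left _ (by positivity)
          have := Finset.sum_le_card_nsmul _ _ _ h2
          rwa [Finset.card_range, nsmul_eq_mul] at this
      _ = _ := by field_simp
  calc ∑ c ∈ (range L).erase c₀, psi L R c y ≤
      ((range L).erase c₀).card * (9 * (J : ℝ) ^ 2 * L ^ 2 / R * (1 / L)) := by
        have := Finset.sum_le_card_nsmul _ _ _ h1
        rwa [nsmul_eq_mul] at this
    _ ≤ L * (9 * (J : ℝ) ^ 2 * L ^ 2 / R * (1 / L)) := by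
        apply mul_le_mul_of_nonneg_right _ (by positivity)
        have h3 := Finset.card_erase_le (s := range L) (a := c₀)
        rw [Finset.card_range] at h3
        exact_mod_cast h3
    _ = _ := by field_simp

/-- few points are near the ends of the cells -/
lemma near_le {τ : Type} (S : Finset τ) (Y : τ → ℝ) {L J : ℕ} (hJ : 1 ≤ J) {ω : ℝ}
    (h : ∀ n : ℤ, n ≠ 0 → |n| ≤ J → ‖∑ t ∈ S, ea (((n * L : ℤ) : ℝ) * Y t)‖ ≤ ω * S.card)
    [DecidablePred fun t => ∃ z : ℤ, |L * Y t - z| ≤ 1 / (6 * (J : ℝ))] :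
    (((S.filter fun t => ∃ z : ℤ, |L * Y t - z| ≤ 1 / (6 * (J : ℝ))).card : ℕ) : ℝ) ≤
      S.card * (4 / J + 4 * ω) := by
  have hJ' : (0 : ℝ) < J := by exact_mod_cast hJ
  have h1 : (((S.filter fun t => ∃ z : ℤ, |L * Y t - z| ≤ 1 / (6 * (J : ℝ))).card : ℕ) : ℝ) ≤
      ∑ t ∈ S, 4 / J * FR J (L * Y t) := by
    rw [Finset.card_filter, Nat.cast_sum]
    apply Finset.sum_le_sum
    intro t _
    split_ifs with ht
    · obtain ⟨z, hz⟩ := ht
      have h2 := mul_le_mul_of_nonneg_left (FR_ge hJ hz) (by positivity : 0 ≤ 4 / (J : ℝ))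
      have e : 4 / (J : ℝ) * (J / 4) = 1 := by field_simp
      rw [e] at h2
      exact_mod_cast h2
    · push_cast
      exact mul_nonneg (by positivity) (FR_nonneg _ _)
  refine h1.trans ?_
  rw [← Finset.mul_sum]
  have h2 : ∑ t ∈ S, FR J (L * Y t) ≤ S.card * (1 + J * ω) := by
    have h3 : ‖((∑ t ∈ S, FR J (L * Y t) : ℝ) : ℂ)‖ ≤ S.card * (1 + J * ω) := by
      rw [Complex.ofReal_sum]
      simp only [FR_expand]
      rw [← Finset.mul_sum, Finset.sum_comm, norm_mul, norm_div, norm_one, Complex.norm_natCast]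
      have h4 : ‖∑ p ∈ range J ×ˢ range J, ∑ t ∈ S, ea (((p.1 : ℝ) - p.2) * (L * Y t))‖ ≤
          ∑ p ∈ range J ×ˢ range J, (if p.1 = p.2 then (S.card : ℝ) else ω * S.card) := by
        refine (norm_sum_le _ _).trans (Finset.sum_le_sum fun p hp => ?_)
        rw [Finset.mem_product, Finset.mem_range, Finset.mem_range] at hp
        split_ifs with hpp
        · rw [hpp]
          simp only [sub_self, zero_mul, ea_zero, Finset.sum_const, nsmul_eq_mul, mul_one,
            Complex.norm_natCast]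
          exact le_rfl
        · have h5 := h ((p.1 : ℤ) - p.2) (by omega) (by rw [abs_le]; constructor <;> omega)
          have e : ∀ t, ((p.1 : ℝ) - p.2) * (L * Y t) = ((((p.1 : ℤ) - p.2) * L : ℤ) : ℝ) * Y t := by
            intro t
            push_cast
            ring
          simp only [e]
          exact h5
      have h5 : ∑ p ∈ range J ×ˢ range J, (if p.1 = p.2 then (S.card : ℝ) else ω * S.card) ≤
          J * S.card + J ^ 2 * (ω * S.card) := by
        rw [Finset.sum_ite]
        have h6 : (range J ×ˢ range J).filter (fun p => p.1 = p.2) = (range J).diag := diag_filter J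
        rw [h6, Finset.sum_const, Finset.diag_card, Finset.card_range, nsmul_eq_mul, Finset.sum_const,
          nsmul_eq_mul]
        have hω : 0 ≤ ω * S.card := by
          rcases Nat.lt_or_ge 1 J with h7 | h7
          · exact (norm_nonneg _).trans (h 1 (by norm_num) (by simp; omega))
          · exact (norm_nonneg _).trans (h 1 (by norm_num) (by simp; omega))
        have h7 : ((((range J ×ˢ range J).filter (fun p => ¬ p.1 = p.2)).card : ℕ) : ℝ) ≤ (J : ℝ) ^ 2 := by
          have h8 := Finset.card_filter_le (range J ×ˢ range J) (fun p => ¬ p.1 = p.2)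
          rw [Finset.card_product, Finset.card_range] at h8
          calc _ ≤ ((J * J : ℕ) : ℝ) := by exact_mod_cast h8
            _ = _ := by push_cast; ring
        have h8 := mul_le_mul_of_nonneg_right h7 hω
        linarith
      calc 1 / (J : ℝ) * ‖∑ p ∈ range J ×ˢ range J, ∑ t ∈ S, ea (((p.1 : ℝ) - p.2) * (L * Y t))‖ ≤
          1 / (J : ℝ) * (J * S.card + J ^ 2 * (ω * S.card)) :=
            mul_le_mul_of_nonneg_left (h4.trans h5) (by positivity)
        _ = _ := by
          field_simp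
    rw [Complex.norm_real] at h3
    exact (le_abs_self _).trans h3
  calc 4 / (J : ℝ) * ∑ t ∈ S, FR J (L * Y t) ≤ 4 / (J : ℝ) * (S.card * (1 + J * ω)) :=
        mul_le_mul_of_nonneg_left h2 (by positivity)
    _ = _ := by
      field_simp

end Pool.Agent.V5helper45.RB
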