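import Mathlib

/-!
# Liouville's inequality for linear forms in several algebraic numbers
-/

set_option autoImplicit false

namespace Pool.Agent.V5helper45.RB

open Finset Polynomial IntermediateField

/-- `y` is a root of a nonzero integral polynomial of degree at most `d` whose coefficients are at
most `h` in absolute value -/
def BddAlg (d : ℕ) (h : ℝ) (y : ℝ) : Prop :=
  ∃ P : ℤ[X], P ≠ 0 ∧ P.natDegree ≤ d ∧ (∀ i, |(P.coeff i : ℝ)| ≤ h) ∧ aeval y P = 0

lemma root_le_complex {P : ℤ[X]} (hP0 : P ≠ 0) {h : ℝ} (hh : ∀ i, |(P.coeff i : ℝ)| ≤ h) {x : ℂ}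
    (hx : aeval x P = 0) : ‖x‖ ≤ h + 1 := by
  set Q : ℂ[X] := P.map (Int.castRingHom ℂ) with hQ
  have hQd : Q.natDegree = P.natDegree := by
    rw [hQ, natDegree_map_eq_of_injective Int.cast_injective]
  have hQ0 : Q ≠ 0 := by
    rw [hQ]
    exact (Polynomial.map_ne_zero_iff Int.cast_injective).2 hP0
  have hroot : Q.IsRoot x := by
    rw [IsRoot, hQ, eval_map, ← algebraMap_int_eq, ← aeval_def]
    exact hx
  have h1 := hroot.norm_lt_cauchyBound hQ0
  have h2 : ((cauchyBound Q : NNReal) : ℝ) ≤ h + 1 := by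
    unfold cauchyBound
    push_cast
    have h0 : 0 ≤ h := (abs_nonneg _).trans (hh 0)
    have hlc : (1 : ℝ) ≤ ‖Q.leadingCoeff‖ := by
      have : Q.leadingCoeff = (P.leadingCoeff : ℂ) := by
        rw [leadingCoeff, hQd, hQ, coeff_map]
        rfl
      rw [this, Complex.norm_intCast, ← Int.cast_abs]
      exact_mod_cast Int.one_le_abs (leadingCoeff_ne_zero.2 hP0)
    have hsup : ((((range Q.natDegree).sup fun x => ‖Q.coeff x‖₊) : NNReal) : ℝ) ≤ h := by
      have h1 : ((range Q.natDegree).sup fun x => ‖Q.coeff x‖₊) ≤ Real.toNNReal h := by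
        apply Finset.sup_le
        intro i _
        rw [Real.le_toNNReal_iff_coe_le h0]
        push_cast
        have : Q.coeff i = (P.coeff i : ℂ) := by
          rw [hQ, coeff_map]
          rfl
        rw [this, Complex.norm_intCast]
        exact hh i
      have h2 := NNReal.coe_le_coe.2 h1
      rwa [Real.coe_toNNReal h h0] at h2
    have : ((((range Q.natDegree).sup fun x => ‖Q.coeff x‖₊) : NNReal) : ℝ) / ‖Q.leadingCoeff‖ ≤ h :=
      (div_le_self (NNReal.coe_nonneg _) hlc).trans hsup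
    linarith
  have h3 : ‖x‖ < ((cauchyBound Q : NNReal) : ℝ) := by exact_mod_cast h1
  linarith

/-- the main inequality -/
theorem lin_norm {d m : ℕ} {h : ℝ} (h1 : 1 ≤ h) {y : Fin m → ℝ} (hy : ∀ i, BddAlg d h (y i))
    {n : Fin m → ℤ} {p : ℤ} (hne : (∑ i, (n i : ℝ) * y i) - p ≠ 0) {B : ℝ} (hB1 : 1 ≤ B)
    (hB : h ^ m * ((∑ i, |(n i : ℝ)|) * (h + 1) + |(p : ℝ)|) ≤ B) :
    1 ≤ h ^ m * |(∑ i, (n i : ℝ) * y i) - p| * B ^ (d ^ m) := by
  classical
  choose P hP0 hPd hPh hPy using hy
  set K : IntermediateField ℚ ℝ := adjoin ℚ (Set.range y) with hK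
  have hfd : FiniteDimensional ℚ K := by
    rw [hK]
    apply finiteDimensional_adjoin
    rintro _ ⟨i, rfl⟩
    have h2 : IsAlgebraic ℚ (y i) := by
      have : IsAlgebraic ℤ (y i) := ⟨P i, hP0 i, hPy i⟩
      exact this.extendScalars (algebraMap ℤ ℚ).injective_int
    exact h2.isIntegral
  have hyK : ∀ i, y i ∈ K := fun i => subset_adjoin ℚ _ ⟨i, rfl⟩
  set Y : Fin m → K := fun i => ⟨y i, hyK i⟩ with hY
  have hYP : ∀ i, aeval (Y i) (P i) = 0 := by
    intro i
    have h2 : algebraMap K ℝ (aeval (Y i) (P i)) = 0 := by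
      rw [← aeval_algebraMap_apply]
      exact hPy i
    exact (map_eq_zero (algebraMap K ℝ)).1 h2
  set ξ : K := (∑ i, (n i : K) * Y i) - (p : K) with hξ
  have hξv : (ξ : ℝ) = (∑ i, (n i : ℝ) * y i) - p := by
    rw [hξ]
    push_cast
    rfl
  set a : ℤ := ∏ i, (P i).leadingCoeff with ha
  have ha0 : a ≠ 0 := by
    rw [ha, Finset.prod_ne_zero_iff]
    intro i _
    exact leadingCoeff_ne_zero.2 (hP0 i)
  have haB : |(a : ℝ)| ≤ h ^ m := by
    rw [ha]
    push_cast
    rw [Finset.abs_prod]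
    calc ∏ i, |((P i).leadingCoeff : ℝ)| ≤ ∏ _i : Fin m, h :=
          Finset.prod_le_prod (fun i _ => abs_nonneg _) fun i _ => hPh i _
      _ = h ^ m := by rw [Finset.prod_const, Finset.card_univ, Fintype.card_fin]
  -- integrality
  have hint : IsIntegral ℤ ((a : K) * ξ) := by
    rw [hξ, mul_sub, Finset.mul_sum]
    apply IsIntegral.sub
    · apply IsIntegral.sum
      intro i _
      have h2 : (a : K) = (((∏ j ∈ Finset.univ.erase i, (P j).leadingCoeff : ℤ)) : K) *
          (((P i).leadingCoeff : ℤ) : K) := by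
        rw [ha, ← Finset.prod_erase_mul _ _ (Finset.mem_univ i)]
        push_cast
        ring
      have h3 : (a : K) * ((n i : K) * Y i) =
          (((∏ j ∈ Finset.univ.erase i, (P j).leadingCoeff : ℤ)) : K) * (n i : K) *
            ((P i).leadingCoeff • Y i) := by
        rw [h2, zsmul_eq_mul]
        ring
      rw [h3]
      apply IsIntegral.mul
      · apply IsIntegral.mul
        · exact isIntegral_algebraMap (R := ℤ)
            (x := (∏ j ∈ Finset.univ.erase i, (P j).leadingCoeff : ℤ))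
        · exact isIntegral_algebraMap (R := ℤ) (x := n i)
      · exact isIntegral_leadingCoeff_smul (P i) (Y i) (hYP i)
    · apply IsIntegral.mul
      · exact isIntegral_algebraMap (R := ℤ) (x := a)
      · exact isIntegral_algebraMap (R := ℤ) (x := p)
  have hne' : (a : K) * ξ ≠ 0 := by
    apply mul_ne_zero
    · exact_mod_cast ha0
    · intro h0
      apply hne
      rw [← hξv, h0]
      rfl
  -- the norm
  have hnint := Algebra.isIntegral_norm ℚ hint
  obtain ⟨z, hz⟩ := IsIntegrallyClosed.isIntegral_iff.1 hnint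
  have hz0 : z ≠ 0 := by
    rintro rfl
    rw [map_zero] at hz
    exact hne' (Algebra.norm_eq_zero_iff.1 hz.symm)
  have hprod := Algebra.norm_eq_prod_embeddings ℚ ℂ ((a : K) * ξ)
  rw [← hz] at hprod
  have h2 : (1 : ℝ) ≤ ∏ σ : K →ₐ[ℚ] ℂ, ‖σ ((a : K) * ξ)‖ := by
    rw [← norm_prod, ← hprod]
    have : (algebraMap ℚ ℂ) ((algebraMap ℤ ℚ) z) = (z : ℂ) := by simp
    rw [this, Complex.norm_intCast, ← Int.cast_abs]
    exact_mod_cast Int.one_le_abs hz0
  -- the embeddings
  have hσ : ∀ σ : K →ₐ[ℚ] ℂ, ‖σ ((a : K) * ξ)‖ ≤ B := by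
    intro σ
    refine le_trans ?_ hB
    rw [hξ, map_mul, map_sub, map_sum, map_intCast, map_intCast, norm_mul, Complex.norm_intCast]
    apply mul_le_mul haB _ (norm_nonneg _) (by positivity)
    refine (norm_sub_le _ _).trans ?_
    rw [Complex.norm_intCast]
    apply add_le_add _ le_rfl
    refine (norm_sum_le _ _).trans ?_
    rw [Finset.sum_mul]
    apply Finset.sum_le_sum
    intro i _
    rw [map_mul, map_intCast, norm_mul, Complex.norm_intCast]
    apply mul_le_mul_of_nonneg_left _ (abs_nonneg _)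
    apply root_le_complex (hP0 i) (hPh i)
    have h3 := aeval_algHom_apply (σ.restrictScalars ℤ) (Y i) (P i)
    rw [hYP, map_zero] at h3
    exact h3
  -- the number of embeddings
  have hcard : Fintype.card (K →ₐ[ℚ] ℂ) ≤ d ^ m := by
    rw [← Finset.card_univ]
    have h3 : (Finset.univ : Finset (K →ₐ[ℚ] ℂ)).card ≤ (Fintype.piFinset fun i : Fin m =>
        ((P i).map (Int.castRingHom ℂ)).roots.toFinset).card := by
      apply Finset.card_le_card_of_injOn (fun σ i => σ (Y i))
      · intro σ _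
        rw [Finset.mem_coe, Fintype.mem_piFinset]
        intro i
        rw [Multiset.mem_toFinset, mem_roots]
        · rw [IsRoot, eval_map, ← algebraMap_int_eq, ← aeval_def]
          have h3 := aeval_algHom_apply (σ.restrictScalars ℤ) (Y i) (P i)
          rw [hYP, map_zero] at h3
          exact h3
        · exact (Polynomial.map_ne_zero_iff Int.cast_injective).2 (hP0 i)
      · intro σ _ τ _ hστ
        apply adjoin_algHom_ext ℚ
        rintro _ ⟨i, rfl⟩
        exact congrFun hστ i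
    refine h3.trans ?_
    rw [Fintype.card_piFinset]
    calc ∏ i : Fin m, ((P i).map (Int.castRingHom ℂ)).roots.toFinset.card ≤ ∏ _i : Fin m, d := by
          apply Finset.prod_le_prod' 
          intro i _
          refine (Multiset.toFinset_card_le _).trans ((card_roots' _).trans ?_)
          exact natDegree_map_le.trans (hPd i)
      _ = d ^ m := by rw [Finset.prod_const, Finset.card_univ, Fintype.card_fin]
  -- conclusion
  set ι₀ : K →ₐ[ℚ] ℂ := (Complex.ofRealAm.restrictScalars ℚ).comp K.val with hι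
  have h3 : ‖ι₀ ((a : K) * ξ)‖ ≤ h ^ m * |(∑ i, (n i : ℝ) * y i) - p| := by
    rw [← hξv]
    have : ι₀ ((a : K) * ξ) = (((a : ℝ) * (ξ : ℝ) : ℝ) : ℂ) := by
      rw [map_mul, map_intCast, Complex.ofReal_mul, Complex.ofReal_intCast]
      rfl
    rw [this, Complex.norm_real, norm_mul, Real.norm_eq_abs, Real.norm_eq_abs]
    exact mul_le_mul_of_nonneg_right haB (abs_nonneg _)
  rw [← Finset.mul_prod_erase _ _ (Finset.mem_univ ι₀)] at h2
  refine h2.trans (mul_le_mul h3 ?_ (Finset.prod_nonneg fun _ _ => norm_nonneg _) (by positivity))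
  calc ∏ σ ∈ Finset.univ.erase ι₀, ‖σ ((a : K) * ξ)‖ ≤ ∏ _σ ∈ Finset.univ.erase ι₀, B :=
        Finset.prod_le_prod (fun σ _ => norm_nonneg _) fun σ _ => hσ σ
    _ = B ^ (Finset.univ.erase ι₀).card := by rw [Finset.prod_const]
    _ ≤ B ^ (d ^ m) := by
        apply pow_le_pow_right₀ hB1
        refine (Finset.card_le_card (Finset.erase_subset _ _)).trans ?_
        rw [Finset.card_univ]
        exact hcard

/-- **Liouville's inequality for linear forms.** -/
theorem dio_lin (d m : ℕ) : ∃ κ : ℝ, 0 ≤ κ ∧ ∀ W : ℝ, 1 ≤ W → ∀ y : Fin m → ℝ,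
    (∀ i, BddAlg d (Real.exp W) (y i)) →
    LinearIndependent ℚ (Fin.cons 1 y : Fin (m + 1) → ℝ) → ∀ n : Fin m → ℤ, n ≠ 0 →
    (∀ i, |(n i : ℝ)| ≤ Real.exp W) → ∀ q : ℕ, 1 ≤ q → ∀ p : ℤ,
    Real.exp (-(κ * W)) / (q : ℝ) ^ ((d ^ m : ℕ) : ℝ) ≤ |(∑ i, (n i : ℝ) * y i) * q - p| := by
  refine ⟨m + (d ^ m : ℕ) * (2 * m + 4), by positivity, ?_⟩
  intro W hW y hy hli n hn hnW q hq p
  have hq' : (1 : ℝ) ≤ q := by exact_mod_cast hq
  set h := Real.exp W with hh
  have hh2 : 2 ≤ h := by
    have := Real.add_one_le_exp W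
    linarith
  -- the value is not zero
  set v := (∑ i, (n i : ℝ) * y i) * q - p with hv
  have hform : v = (∑ i, ((n i * q : ℤ) : ℝ) * y i) - p := by
    rw [hv, Finset.sum_mul]
    congr 1
    refine Finset.sum_congr rfl fun i _ => ?_
    push_cast
    ring
  have hv0 : v ≠ 0 := by
    intro h0
    rw [Fintype.linearIndependent_iff] at hli
    obtain ⟨i, hi⟩ : ∃ i, n i ≠ 0 := by
      by_contra hcon
      push Not at hcon
      exact hn (funext hcon)
    have h1 := hli (Fin.cons (-(p : ℚ)) fun i => ((n i * q : ℤ) : ℚ)) (by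
      rw [Fin.sum_univ_succ]
      simp only [Fin.cons_zero, Fin.cons_succ]
      have e : ∑ i : Fin m, ((n i * q : ℤ) : ℚ) • y i = ∑ i, ((n i * q : ℤ) : ℝ) * y i := by
        refine Finset.sum_congr rfl fun i _ => ?_
        rw [Rat.smul_def]
        push_cast
        ring
      rw [e, Rat.smul_def]
      push_cast at hform ⊢
      linarith) i.succ
    rw [Fin.cons_succ] at h1
    have h2 : n i * (q : ℤ) = 0 := by exact_mod_cast h1
    rcases mul_eq_zero.1 h2 with h3 | h3
    · exact hi h3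
    · have : q = 0 := by exact_mod_cast h3
      omega
  have hκW : 0 ≤ ((m : ℝ) + (d ^ m : ℕ) * (2 * m + 4)) * W := by positivity
  by_cases hbig : 1 ≤ |v|
  · refine le_trans ?_ hbig
    rw [div_le_one (by positivity)]
    calc Real.exp (-(((m : ℝ) + (d ^ m : ℕ) * (2 * m + 4)) * W)) ≤ 1 := by
          rw [Real.exp_le_one_iff]
          linarith
      _ ≤ _ := Real.one_le_rpow hq' (by positivity)
  push Not at hbig
  have hys : ∀ i, |y i| ≤ h + 1 := by
    intro i
    obtain ⟨P, hP0, _, hPh, hPy⟩ := hy i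
    have h1 : aeval ((y i : ℝ) : ℂ) P = 0 := by
      have := aeval_algebraMap_apply (A := ℝ) ℂ (y i) P
      rw [hPy] at this
      simpa using this
    have h2 := root_le_complex hP0 hPh h1
    rwa [Complex.norm_real, Real.norm_eq_abs] at h2
  have hsum : ∑ i, |((n i * q : ℤ) : ℝ)| ≤ m * (h * q) := by
    calc ∑ i, |((n i * q : ℤ) : ℝ)| ≤ ∑ _i : Fin m, h * q := by
          apply Finset.sum_le_sum
          intro i _
          push_cast
          rw [abs_mul, abs_of_pos (by linarith : (0 : ℝ) < q)]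
          exact mul_le_mul_of_nonneg_right (hnW i) (by linarith)
      _ = _ := by rw [Finset.sum_const, Finset.card_univ, Fintype.card_fin, nsmul_eq_mul]
  have hp : |(p : ℝ)| ≤ m * (h * q) * (h + 1) + 1 := by
    have h1 : (p : ℝ) = (∑ i, ((n i * q : ℤ) : ℝ) * y i) - v := by
      rw [hform]
      ring
    rw [h1]
    refine (abs_sub _ _).trans (add_le_add ?_ hbig.le)
    refine (Finset.abs_sum_le_sum_abs _ _).trans ?_
    refine le_trans ?_ (mul_le_mul_of_nonneg_right hsum (by linarith))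
    rw [Finset.sum_mul]
    apply Finset.sum_le_sum
    intro i _
    rw [abs_mul]
    exact mul_le_mul_of_nonneg_left (hys i) (abs_nonneg _)
  -- the bound of the conjugates
  have hm2 : (m : ℝ) + 1 ≤ h ^ m := by
    calc (m : ℝ) + 1 ≤ 2 ^ m := by
          have : m + 1 ≤ 2 ^ m := Nat.lt_two_pow_self
          exact_mod_cast this
      _ ≤ h ^ m := pow_le_pow_left₀ (by norm_num) hh2 m
  set B := h ^ (2 * m + 4) * q with hB
  have hB1 : 1 ≤ B := by
    rw [hB]
    exact one_le_mul_of_one_le_of_one_le (one_le_pow₀ (by linarith)) hq'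
  have hBB : h ^ m * ((∑ i, |((n i * q : ℤ) : ℝ)|) * (h + 1) + |(p : ℝ)|) ≤ B := by
    have h1 : (∑ i, |((n i * q : ℤ) : ℝ)|) * (h + 1) + |(p : ℝ)| ≤ h ^ (m + 4) * q := by
      have h2 : (∑ i, |((n i * q : ℤ) : ℝ)|) * (h + 1) ≤ m * (h * q) * (h + 1) :=
        mul_le_mul_of_nonneg_right hsum (by linarith)
      have h3 : (m : ℝ) * (h * q) * (h + 1) ≤ m * (h * q) * (h * h) := by
        apply mul_le_mul_of_nonneg_left _ (by positivity)
        nlinarith
      have h4 : (1 : ℝ) ≤ h ^ 3 * q := by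
        exact one_le_mul_of_one_le_of_one_le (one_le_pow₀ (by linarith)) hq'
      calc (∑ i, |((n i * q : ℤ) : ℝ)|) * (h + 1) + |(p : ℝ)| ≤
          m * (h * q) * (h * h) + (m * (h * q) * (h * h) + 2 * (h ^ 3 * q)) := by linarith
        _ = ((m : ℝ) + 1) * (2 * (h ^ 3 * q)) := by ring
        _ ≤ h ^ m * (h * (h ^ 3 * q)) := by gcongr
        _ = _ := by ring
    calc h ^ m * ((∑ i, |((n i * q : ℤ) : ℝ)|) * (h + 1) + |(p : ℝ)|) ≤ h ^ m * (h ^ (m + 4) * q) :=
          mul_le_mul_of_nonneg_left h1 (by positivity)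
      _ = B := by rw [hB]; ring
  have hmain := lin_norm (by linarith : 1 ≤ h) hy (n := fun i => n i * q) (p := p)
    (by rw [← hform]; exact hv0) hB1 hBB
  rw [← hform] at hmain
  have hqp : (q : ℝ) ^ ((d ^ m : ℕ) : ℝ) = (q : ℝ) ^ (d ^ m) := Real.rpow_natCast _ _
  rw [hqp, Real.exp_neg, div_le_iff₀ (by positivity), inv_le_iff_one_le_mul₀ (Real.exp_pos _)]
  refine hmain.trans (le_of_eq ?_)
  have e1 : Real.exp (((m : ℝ) + (d ^ m : ℕ) * (2 * m + 4)) * W) = h ^ (m + d ^ m * (2 * m + 4)) := by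
    rw [hh, ← Real.exp_nat_mul]
    congr 1
    push_cast
    ring
  rw [e1, hB, mul_pow, ← pow_mul, pow_add, mul_comm (d ^ m) (2 * m + 4)]
  ring

end Pool.Agent.V5helper45.RB
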