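import Pool.Agent.V5helper45.RB.TTg
import Pool.Agent.V5helper45.RB.Lin

/-!
# The frequencies of the joint law of the digits
-/

set_option autoImplicit false

namespace Pool.Agent.V5helper45.RB

open Finset Polynomial Filter
open Pool.Agent.Y309.VK (ea ea_zero ea_add ea_sum ea_conj)

section
variable {m N : ℕ}

/-- the linear form of a column of the frequency -/
noncomputable def lf (y : Fin m → ℝ) (n : Fin m × Fin N → ℤ) (j : Fin N) : ℝ :=
  ∑ i : Fin m, (n (i, j) : ℝ) * y i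

/-- the real polynomial of a frequency -/
noncomputable def qq (y : Fin m → ℝ) (n : Fin m × Fin N → ℤ) : ℝ[X] :=
  ∑ j : Fin N, C (lf y n j) * X ^ ((j : ℕ) + 1)

lemma qq_coeff (y : Fin m → ℝ) (n : Fin m × Fin N → ℤ) (k : ℕ) :
    (qq y n).coeff k = if hk : 1 ≤ k ∧ k - 1 < N then lf y n ⟨k - 1, hk.2⟩ else 0 := by
  classical
  unfold qq
  rw [finsetSum_coeff]
  simp only [coeff_C_mul, coeff_X_pow, mul_ite, mul_one, mul_zero]
  split_ifs with hm
  · rw [Finset.sum_eq_single (⟨k - 1, hm.2⟩ : Fin N)]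
    · rw [if_pos]
      show k = (k - 1) + 1
      omega
    · intro i _ hi
      rw [if_neg]
      intro h0
      apply hi
      apply Fin.ext
      show (i : ℕ) = k - 1
      omega
    · intro h0
      exact absurd (Finset.mem_univ _) h0
  · apply Finset.sum_eq_zero
    intro i _
    rw [if_neg]
    intro h0
    apply hm
    have := i.2
    omega

lemma qq_natDegree (y : Fin m → ℝ) (n : Fin m × Fin N → ℤ) : (qq y n).natDegree ≤ N := by
  rw [natDegree_le_iff_coeff_eq_zero]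
  intro k hk
  rw [qq_coeff, dif_neg]
  omega

lemma qq_eval (y : Fin m → ℝ) (n : Fin m × Fin N → ℤ) (r : ℝ) :
    (qq y n).eval r = ∑ p : Fin m × Fin N, (n p : ℝ) * (y p.1 * r ^ ((p.2 : ℕ) + 1)) := by
  unfold qq lf
  rw [eval_finsetSum, Fintype.sum_prod_type_right]
  refine Finset.sum_congr rfl fun j _ => ?_
  rw [eval_mul, eval_C, eval_pow, eval_X, Finset.sum_mul]
  refine Finset.sum_congr rfl fun i _ => ?_
  ring

end

theorem freq (d m : ℕ) {g : ℤ[X]} (hg : 1 ≤ g.natDegree) {η η' : ℝ} (hη' : 0 ≤ η')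
    (hηη : η' < η) :
    ∃ κ : ℝ, 0 ≤ κ ∧ ∃ N₀ : ℕ, ∀ N : ℕ, N₀ ≤ N → ∀ H : ℕ, Real.exp ((N : ℝ) ^ (5 + η)) ≤ H → ∀ T : ℤ,
      ∀ W : ℝ, 1 ≤ W → κ * W + ((max (d ^ m) 1 : ℕ) : ℝ) * Real.log |(g.leadingCoeff : ℝ)| * N ≤
        (N : ℝ) ^ (5 + η') →
      ∀ y : Fin m → ℝ, (∀ i, BddAlg d (Real.exp W) (y i)) →
      LinearIndependent ℚ (Fin.cons 1 y : Fin (m + 1) → ℝ) →
      ∀ n : Fin m × Fin N → ℤ, n ≠ 0 → (∀ p, |(n p : ℝ)| ≤ Real.exp W) →
      ‖∑ t ∈ range H, ea (∑ p, (n p : ℝ) * (y p.1 *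
        ((g.eval (T + 1 + t) : ℤ) : ℝ) ^ ((p.2 : ℕ) + 1)))‖ ≤
          3 * Real.exp (-(N : ℝ) ^ (2 + η')) * H := by
  obtain ⟨A, hA⟩ : ∃ A : ℕ, A = max (d ^ m) 1 := ⟨_, rfl⟩
  have hA1 : (1 : ℝ) ≤ A := by
    rw [hA]
    exact_mod_cast le_max_right _ _
  obtain ⟨κ, hκ0, hκ'⟩ := dio_lin d m
  have hκ : ∀ W : ℝ, 1 ≤ W → ∀ y : Fin m → ℝ, (∀ i, BddAlg d (Real.exp W) (y i)) →
      LinearIndependent ℚ (Fin.cons 1 y : Fin (m + 1) → ℝ) → ∀ n : Fin m → ℤ, n ≠ 0 →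
      (∀ i, |(n i : ℝ)| ≤ Real.exp W) → ∀ q : ℕ, 1 ≤ q → ∀ p : ℤ,
      Real.exp (-(κ * W)) / (q : ℝ) ^ (A : ℝ) ≤ |(∑ i, (n i : ℝ) * y i) * q - p| := by
    intro W hW y hy hli n hn hnW q hq p
    have hq' : (1 : ℝ) ≤ q := by exact_mod_cast hq
    refine le_trans ?_ (hκ' W hW y hy hli n hn hnW q hq p)
    apply div_le_div_of_nonneg_left (Real.exp_pos _).le (Real.rpow_pos_of_pos (by linarith) _)
    apply Real.rpow_le_rpow_of_exponent_le hq'
    rw [hA]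
    exact_mod_cast le_max_left _ _
  rw [← hA]
  set C₀ : ℝ := (g.natDegree : ℝ) with hC₀
  have hC₀1 : 1 ≤ C₀ := by rw [hC₀]; exact_mod_cast hg
  obtain ⟨N₁, hN₁⟩ := weyl2 hη' hηη hC₀1 hA1
  refine ⟨κ, hκ0, N₁, fun N hN H hH T W hW hWN y hy hli n hn hnW => ?_⟩
  set G : ℝ[X] := g.map (Int.castRingHom ℝ) with hG
  have hGd : G.natDegree = g.natDegree := natDegree_map_eq_of_injective Int.cast_injective g
  have hGl : G.leadingCoeff = (g.leadingCoeff : ℝ) := by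
    rw [leadingCoeff, hGd, hG, coeff_map]
    rfl
  have hg0 : g.leadingCoeff ≠ 0 := by
    rw [leadingCoeff_ne_zero]
    rintro rfl
    rw [natDegree_zero] at hg
    omega
  have hgl1 : (1 : ℝ) ≤ |(g.leadingCoeff : ℝ)| := by
    rw [← Int.cast_abs]
    exact_mod_cast Int.one_le_abs hg0
  -- the polynomial of the frequency
  have hdio : ∀ j : Fin N, (∃ i, n (i, j) ≠ 0) → ∀ q : ℕ, 1 ≤ q → ∀ p : ℤ,
      Real.exp (-(κ * W)) / (q : ℝ) ^ (A : ℝ) ≤ |lf y n j * q - p| := by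
    rintro j ⟨i, hi⟩
    exact hκ W hW y hy hli (fun i => n (i, j)) (fun h0 => hi (congrFun h0 i))
      (fun i => hnW (i, j))
  have hne : ∀ j : Fin N, (∃ i, n (i, j) ≠ 0) → lf y n j ≠ 0 := by
    intro j hj h0
    have h1 := hdio j hj 1 le_rfl 0
    rw [h0] at h1
    simp at h1
    have := Real.exp_pos (-(κ * W))
    linarith
  have hzero : ∀ j : Fin N, (¬ ∃ i, n (i, j) ≠ 0) → lf y n j = 0 := by
    intro j hj
    push Not at hj
    unfold lf
    simp [hj]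
  set p₀ := qq y n with hp₀
  have hp0 : p₀ ≠ 0 := by
    obtain ⟨⟨i, j⟩, hij⟩ : ∃ p, n p ≠ 0 := by
      by_contra hcon
      push Not at hcon
      exact hn (funext hcon)
    intro h0
    have h1 : p₀.coeff ((j : ℕ) + 1) = 0 := by rw [h0, coeff_zero]
    rw [hp₀, qq_coeff, dif_pos (by have := j.2; omega)] at h1
    exact hne j ⟨i, hij⟩ h1
  have hlc0 : p₀.leadingCoeff ≠ 0 := leadingCoeff_ne_zero.2 hp0
  obtain ⟨e, he⟩ : ∃ e, e = p₀.natDegree := ⟨_, rfl⟩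
  have heN : e ≤ N := by
    rw [he]
    exact qq_natDegree y n
  obtain ⟨j, hj, hjl, he1⟩ : ∃ j : Fin N, (∃ i, n (i, j) ≠ 0) ∧
      p₀.leadingCoeff = lf y n j ∧ 1 ≤ e := by
    have h1 := hlc0
    rw [leadingCoeff, hp₀, qq_coeff] at h1
    split_ifs at h1 with hk
    · refine ⟨⟨p₀.natDegree - 1, hk.2⟩, ?_, ?_, ?_⟩
      · by_contra hcon
        exact h1 (hzero _ hcon)
      · conv_lhs => rw [leadingCoeff, hp₀, qq_coeff]
        rw [dif_pos hk]
      · rw [he]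
        exact hk.1
    · exact absurd rfl h1
  set F := p₀.comp G with hF
  have hFd : F.natDegree = e * g.natDegree := by
    rw [hF, natDegree_comp, hGd, he]
  have hFl : F.leadingCoeff = p₀.leadingCoeff * (g.leadingCoeff : ℝ) ^ e := by
    rw [hF, leadingCoeff_comp (by rw [hGd]; omega), hGl, he]
  have hFd1 : 1 ≤ F.natDegree := by
    rw [hFd]
    exact Nat.mul_pos he1 hg
  have hFdN : (F.natDegree : ℝ) ≤ C₀ * N := by
    rw [hFd, hC₀, mul_comm]
    push_cast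
    exact mul_le_mul_of_nonneg_left (by exact_mod_cast heN) (by positivity)
  have hFdio : ∀ q : ℕ, 1 ≤ q → ∀ p : ℤ,
      Real.exp (-(N : ℝ) ^ (5 + η')) / (q : ℝ) ^ (A : ℝ) ≤ |F.leadingCoeff * q - p| := by
    intro q hq p
    have hq' : (1 : ℝ) ≤ q := by exact_mod_cast hq
    set ℓ : ℕ := g.leadingCoeff.natAbs with hℓ
    have hℓ1 : 1 ≤ ℓ := Nat.one_le_iff_ne_zero.2 (Int.natAbs_ne_zero.2 hg0)
    have hℓc : (ℓ : ℝ) = |(g.leadingCoeff : ℝ)| := by
      rw [hℓ, Nat.cast_natAbs, Int.cast_abs]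
    obtain ⟨σ, hσ, hσ2⟩ : ∃ σ : ℤ, |(σ : ℝ)| = 1 ∧ (g.leadingCoeff : ℝ) ^ e = σ * (ℓ : ℝ) ^ e := by
      rcases abs_choice (g.leadingCoeff : ℝ) with h | h
      · refine ⟨1, by simp, ?_⟩
        rw [hℓc, h]
        simp
      · refine ⟨(-1) ^ e, by simp, ?_⟩
        rw [hℓc, h]
        push_cast
        rw [← mul_pow]
        congr 1
        ring
    have hσσ : (σ : ℝ) * σ = 1 := by
      have := abs_mul_abs_self (σ : ℝ)
      rw [hσ] at this
      linarith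
    have h1 := hdio j hj (q * ℓ ^ e) (Nat.mul_pos hq (Nat.pow_pos hℓ1)) (σ * p)
    have h2 : |F.leadingCoeff * q - p| = |lf y n j * ((q * ℓ ^ e : ℕ) : ℝ) -
        ((σ * p : ℤ) : ℝ)| := by
      rw [hFl, hjl, hσ2]
      push_cast
      have e1 : lf y n j * ((q : ℝ) * (ℓ : ℝ) ^ e) - (σ : ℝ) * p =
          σ * (lf y n j * ((σ : ℝ) * (ℓ : ℝ) ^ e) * q - p) := by
        linear_combination (-(lf y n j) * (ℓ : ℝ) ^ e * q) * hσσ
      rw [e1, abs_mul, hσ, one_mul]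
    rw [h2]
    refine le_trans ?_ h1
    push_cast
    rw [Real.mul_rpow (by positivity) (by positivity)]
    have e2 : ((ℓ : ℝ) ^ e) ^ (A : ℝ) ≤
        Real.exp ((A : ℝ) * Real.log |(g.leadingCoeff : ℝ)| * N) := by
      have h3 : (ℓ : ℝ) ^ e = Real.exp (Real.log |(g.leadingCoeff : ℝ)| * e) := by
        rw [hℓc]
        rw [mul_comm, Real.exp_nat_mul, Real.exp_log (by linarith)]
      rw [h3, ← Real.exp_mul]
      apply Real.exp_le_exp.2
      have h4 : 0 ≤ Real.log |(g.leadingCoeff : ℝ)| := Real.log_nonneg hgl1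
      have h5 : (e : ℝ) ≤ N := by exact_mod_cast heN
      have h6 : 0 ≤ (A : ℝ) * Real.log |(g.leadingCoeff : ℝ)| := by
        apply mul_nonneg _ h4
        linarith
      calc Real.log |(g.leadingCoeff : ℝ)| * e * (A : ℝ) =
          (A : ℝ) * Real.log |(g.leadingCoeff : ℝ)| * e := by ring
        _ ≤ _ := mul_le_mul_of_nonneg_left h5 h6
    have hqp : (0 : ℝ) < (q : ℝ) ^ (A : ℝ) := Real.rpow_pos_of_pos (by linarith) _
    have hℓp : (0 : ℝ) < ((ℓ : ℝ) ^ e) ^ (A : ℝ) := by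
      apply Real.rpow_pos_of_pos
      have : (0 : ℝ) < ℓ := by exact_mod_cast hℓ1
      positivity
    rw [div_le_div_iff₀ hqp (by positivity)]
    calc Real.exp (-(N : ℝ) ^ (5 + η')) * ((q : ℝ) ^ (A : ℝ) * ((ℓ : ℝ) ^ e) ^ (A : ℝ)) ≤
        Real.exp (-(N : ℝ) ^ (5 + η')) * ((q : ℝ) ^ (A : ℝ) *
          Real.exp ((A : ℝ) * Real.log |(g.leadingCoeff : ℝ)| * N)) := by
          gcongr
      _ = (q : ℝ) ^ (A : ℝ) * Real.exp (-(N : ℝ) ^ (5 + η') +
          ((A : ℝ) * Real.log |(g.leadingCoeff : ℝ)| * N)) := by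
          rw [Real.exp_add]
          ring
      _ ≤ (q : ℝ) ^ (A : ℝ) * Real.exp (-(κ * W)) := by
          apply mul_le_mul_of_nonneg_left _ hqp.le
          apply Real.exp_le_exp.2
          linarith
      _ = _ := by ring
  have hmain := hN₁ N hN H hH (T + 1 : ℝ) F hFd1 hFdN hFdio
  refine le_trans (le_of_eq ?_) (hmain.trans (le_of_eq (by ring)))
  congr 1
  refine Finset.sum_congr rfl fun t _ => ?_
  rw [hF, eval_comp, hp₀, qq_eval]
  have e1 : G.eval ((T + 1 : ℝ) + t) = ((g.eval (T + 1 + t : ℤ) : ℤ) : ℝ) := by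
    have e2 : ((T + 1 : ℝ) + t) = ((T + 1 + t : ℤ) : ℝ) := by
      push_cast
      ring
    rw [hG, e2, eval_intCast_map]
    simp
  rw [e1]

end Pool.Agent.V5helper45.RB
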