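import Pool.Agent.V5helper45.RB.Fejer

/-!
# The joint law of finitely many points of the circle, at a finite resolution, from exponential sums
-/

set_option autoImplicit false

namespace Pool.Agent.V5helper45.RB

open Finset
open Pool.Agent.Y309.VK (ea ea_zero ea_add ea_sum ea_conj)

lemma one_sub_prod_le {ι : Type} (s : Finset ι) (a : ι → ℝ) (h0 : ∀ i, 0 ≤ a i)
    (h1 : ∀ i, a i ≤ 1) : 1 - ∏ i ∈ s, a i ≤ ∑ i ∈ s, (1 - a i) := by
  classical
  induction s using Finset.induction_on with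
  | empty => simp
  | insert i s hi ih =>
    rw [Finset.prod_insert hi, Finset.sum_insert hi]
    have h2 : 0 ≤ ∏ j ∈ s, a j := Finset.prod_nonneg fun j _ => h0 j
    have h3 : ∏ j ∈ s, a j ≤ 1 := Finset.prod_le_one (fun j _ => h0 j) fun j _ => h1 j
    have h4 := h0 i
    have h5 := h1 i
    nlinarith

lemma cell_lt {L : ℕ} (hL : 1 ≤ L) (y : ℝ) : ⌊L * Int.fract y⌋₊ < L := by
  have hL' : (0 : ℝ) < L := by exact_mod_cast hL
  rw [Nat.floor_lt (mul_nonneg hL'.le (Int.fract_nonneg y))]
  have := mul_lt_mul_of_pos_left (Int.fract_lt_one y) hL'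
  linarith

lemma psi_le_one {L R : ℕ} (hL : 1 ≤ L) (hR : 1 ≤ R) {c : ℕ} (hc : c < L) (y : ℝ) :
    psi L R c y ≤ 1 := by
  rw [← psi_sum hL hR y]
  exact Finset.single_le_sum (f := fun c => psi L R c y) (fun c _ => psi_nonneg L R c y)
    (Finset.mem_range.2 hc)

section
variable {τ ι : Type} [Fintype ι] [DecidableEq ι]

/-- the smooth weights of one cell -/
lemma cell_sum (S : Finset τ) (Y : τ → ι → ℝ) {L R : ℕ} (hL : 1 ≤ L) (hR : 1 ≤ R) {ω : ℝ}
    (hω : 0 ≤ ω)
    (h : ∀ n : ι → ℤ, n ≠ 0 → (∀ i, |n i| ≤ R) → ‖∑ t ∈ S, ea (∑ i, (n i : ℝ) * Y t i)‖ ≤ ω * S.card)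
    (a : ι → ℕ) :
    |∑ t ∈ S, ∏ i, psi L R (a i) (Y t i) - S.card * (1 / (L : ℝ)) ^ Fintype.card ι| ≤
      S.card * (((R : ℝ) / L) ^ Fintype.card ι * ω) := by
  have hL' : (L : ℝ) ≠ 0 := by exact_mod_cast (by omega : L ≠ 0)
  have hR' : (R : ℝ) ≠ 0 := by exact_mod_cast (by omega : R ≠ 0)
  have hLc : (L : ℂ) ≠ 0 := by exact_mod_cast (by omega : L ≠ 0)
  have hRc : (R : ℂ) ≠ 0 := by exact_mod_cast (by omega : R ≠ 0)
  set B := range R ×ˢ range R with hB
  set d : ℕ × ℕ → ℂ := fun p => if p.1 = p.2 then 1 / ((L : ℂ) * R) else 0 with hd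
  -- the expansion
  have h1 : ∀ t, ((∏ i, psi L R (a i) (Y t i) : ℝ) : ℂ) =
      ∑ P ∈ Fintype.piFinset fun _ : ι => B, (∏ i, ac L R (a i) (P i)) *
        ea (∑ i, (((((P i).2 : ℤ) - (P i).1 : ℤ)) : ℝ) * Y t i) := by
    intro t
    rw [Complex.ofReal_prod]
    simp only [psi_expand]
    rw [Finset.prod_univ_sum]
    refine Finset.sum_congr rfl fun P _ => ?_
    rw [Finset.prod_mul_distrib, ea_sum]
    congr 1
    refine Finset.prod_congr rfl fun i _ => ?_
    congr 1
    push_cast
    ring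
  have h2 : ((∑ t ∈ S, ∏ i, psi L R (a i) (Y t i) : ℝ) : ℂ) =
      ∑ P ∈ Fintype.piFinset fun _ : ι => B, (∏ i, ac L R (a i) (P i)) *
        ∑ t ∈ S, ea (∑ i, (((((P i).2 : ℤ) - (P i).1 : ℤ)) : ℝ) * Y t i) := by
    rw [Complex.ofReal_sum]
    simp only [h1]
    rw [Finset.sum_comm]
    refine Finset.sum_congr rfl fun P _ => ?_
    rw [Finset.mul_sum]
  have h3 : ((S.card * (1 / (L : ℝ)) ^ Fintype.card ι : ℝ) : ℂ) =
      ∑ P ∈ Fintype.piFinset fun _ : ι => B, (∏ i, d (P i)) * S.card := by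
    rw [← Finset.sum_mul, ← Finset.prod_univ_sum]
    have h4 : ∑ p ∈ B, d p = 1 / (L : ℂ) := by
      rw [hd, hB, ← Finset.sum_filter, diag_filter, Finset.sum_const, Finset.diag_card,
        Finset.card_range, nsmul_eq_mul]
      field_simp
    simp only [h4]
    rw [Finset.prod_const, Finset.card_univ]
    push_cast
    ring
  have h5 : ‖((∑ t ∈ S, ∏ i, psi L R (a i) (Y t i) : ℝ) : ℂ) -
      ((S.card * (1 / (L : ℝ)) ^ Fintype.card ι : ℝ) : ℂ)‖ ≤
      S.card * (((R : ℝ) / L) ^ Fintype.card ι * ω) := by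
    rw [h2, h3, ← Finset.sum_sub_distrib]
    have h6 : ∀ P ∈ Fintype.piFinset fun _ : ι => B, ‖(∏ i, ac L R (a i) (P i)) *
        ∑ t ∈ S, ea (∑ i, (((((P i).2 : ℤ) - (P i).1 : ℤ)) : ℝ) * Y t i) -
          (∏ i, d (P i)) * S.card‖ ≤ (1 / ((L : ℝ) * R)) ^ Fintype.card ι * (ω * S.card) := by
      intro P hP
      rw [Fintype.mem_piFinset] at hP
      by_cases hdiag : ∀ i, (P i).1 = (P i).2
      · have e1 : ∏ i, ac L R (a i) (P i) = ∏ i, d (P i) := by
          refine Finset.prod_congr rfl fun i _ => ?_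
          rw [ac_diag hR _ (hdiag i), hd]
          simp only
          rw [if_pos (hdiag i)]
        have e2 : ∑ t ∈ S, ea (∑ i, (((((P i).2 : ℤ) - (P i).1 : ℤ)) : ℝ) * Y t i) = S.card := by
          have : ∀ t ∈ S, ea (∑ i, (((((P i).2 : ℤ) - (P i).1 : ℤ)) : ℝ) * Y t i) = 1 := by
            intro t _
            rw [← ea_zero]
            congr 1
            apply Finset.sum_eq_zero
            intro i _
            rw [hdiag i, sub_self]
            push_cast
            ring
          rw [Finset.sum_congr rfl this, Finset.sum_const, nsmul_eq_mul, mul_one]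
        rw [e1, e2, sub_self, norm_zero]
        positivity
      · have e1 : ∏ i, d (P i) = 0 := by
          push Not at hdiag
          obtain ⟨i, hi⟩ := hdiag
          apply Finset.prod_eq_zero (Finset.mem_univ i)
          rw [hd]
          simp only
          rw [if_neg hi]
        rw [e1, zero_mul, sub_zero, norm_mul, norm_prod]
        apply mul_le_mul _ _ (norm_nonneg _) (by positivity)
        · calc ∏ i, ‖ac L R (a i) (P i)‖ ≤ ∏ _i : ι, (1 / ((L : ℝ) * R)) :=
                Finset.prod_le_prod (fun i _ => norm_nonneg _) fun i _ => ac_norm hR _ _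
            _ = _ := by rw [Finset.prod_const, Finset.card_univ]
        · apply h
          · intro h0
            apply hdiag
            intro i
            have := congrFun h0 i
            simp only [Pi.zero_apply] at this
            omega
          · intro i
            have := hP i
            rw [hB, Finset.mem_product, Finset.mem_range, Finset.mem_range] at this
            rw [abs_le]
            constructor <;> omega
    refine (norm_sum_le _ _).trans ((Finset.sum_le_card_nsmul _ _ _ h6).trans (le_of_eq ?_))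
    rw [Fintype.card_piFinset, Finset.prod_const, Finset.card_univ, hB, Finset.card_product,
      Finset.card_range, nsmul_eq_mul]
    push_cast
    rw [mul_pow, one_div, inv_pow, mul_pow, div_pow]
    field_simp
  rw [← Complex.ofReal_sub, Complex.norm_real] at h5
  exact h5

/-- the smooth weights of a point -/
lemma point_le {L R : ℕ} (hL : 1 ≤ L) (hR : 1 ≤ R) (y : ι → ℝ) (E : Finset (ι → ℕ))
    (hE : ∀ a ∈ E, ∀ i, a i < L) :
    |(if (fun i => ⌊L * Int.fract (y i)⌋₊) ∈ E then (1 : ℝ) else 0) -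
      ∑ a ∈ E, ∏ i, psi L R (a i) (y i)| ≤ ∑ i, (1 - psi L R ⌊L * Int.fract (y i)⌋₊ (y i)) := by
  set c : ι → ℕ := fun i => ⌊L * Int.fract (y i)⌋₊ with hc
  have hcL : ∀ i, c i < L := fun i => cell_lt hL (y i)
  have hEs : E ⊆ Fintype.piFinset fun _ : ι => range L := by
    intro a ha
    rw [Fintype.mem_piFinset]
    intro i
    exact Finset.mem_range.2 (hE a ha i)
  have hcm : c ∈ Fintype.piFinset fun _ : ι => range L := by
    rw [Fintype.mem_piFinset]
    intro i
    exact Finset.mem_range.2 (hcL i)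
  have hnn : ∀ a : ι → ℕ, 0 ≤ ∏ i, psi L R (a i) (y i) := fun a =>
    Finset.prod_nonneg fun i _ => psi_nonneg _ _ _ _
  have hall : ∑ a ∈ Fintype.piFinset fun _ : ι => range L, ∏ i, psi L R (a i) (y i) = 1 := by
    have h1 := Finset.prod_univ_sum (fun _ : ι => range L) (fun i c => psi L R c (y i))
    rw [← h1]
    simp only [psi_sum hL hR, Finset.prod_const_one]
  have hkey : 1 - ∏ i, psi L R (c i) (y i) ≤ ∑ i, (1 - psi L R (c i) (y i)) :=
    one_sub_prod_le Finset.univ _ (fun i => psi_nonneg _ _ _ _) fun i => psi_le_one hL hR (hcL i) _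
  have hle : ∑ a ∈ E, ∏ i, psi L R (a i) (y i) ≤ 1 := by
    rw [← hall]
    exact Finset.sum_le_sum_of_subset_of_nonneg hEs fun a _ _ => hnn a
  refine le_trans ?_ hkey
  split_ifs with hin
  · rw [abs_of_nonneg (by linarith)]
    have h9 : ∏ i, psi L R (c i) (y i) ≤ ∑ a ∈ E, ∏ i, psi L R (a i) (y i) :=
      Finset.single_le_sum (f := fun a : ι → ℕ => ∏ i, psi L R (a i) (y i)) (fun a _ => hnn a) hin
    linarith
  · have h0 : 0 ≤ ∑ a ∈ E, ∏ i, psi L R (a i) (y i) := Finset.sum_nonneg fun a _ => hnn a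
    rw [zero_sub, abs_neg, abs_of_nonneg h0, ← hall, ← Finset.add_sum_erase _ _ hcm,
      add_sub_cancel_left]
    apply Finset.sum_le_sum_of_subset_of_nonneg _ fun a _ _ => hnn a
    intro a ha
    rw [Finset.mem_erase]
    refine ⟨?_, hEs ha⟩
    rintro rfl
    exact hin ha

/-- **The joint law at resolution `1 / L`.** -/
theorem tv (S : Finset τ) (Y : τ → ι → ℝ) {L R J : ℕ} (hL : 1 ≤ L) (hR : 1 ≤ R) (hJ : 1 ≤ J)
    (hJL : J * L ≤ R) {ω : ℝ} (hω : 0 ≤ ω)
    (h : ∀ n : ι → ℤ, n ≠ 0 → (∀ i, |n i| ≤ R) → ‖∑ t ∈ S, ea (∑ i, (n i : ℝ) * Y t i)‖ ≤ ω * S.card)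
    (E : Finset (ι → ℕ)) (hE : ∀ a ∈ E, ∀ i, a i < L) :
    |(((S.filter fun t => (fun i => ⌊L * Int.fract (Y t i)⌋₊) ∈ E).card : ℕ) : ℝ) -
      S.card * (E.card / (L : ℝ) ^ Fintype.card ι)| ≤
      S.card * ((R : ℝ) ^ Fintype.card ι * ω +
        Fintype.card ι * (9 * (J : ℝ) ^ 2 * L ^ 2 / R + 4 / J + 4 * ω)) := by
  classical
  have hL' : (0 : ℝ) < L := by exact_mod_cast hL
  have hR' : (0 : ℝ) < R := by exact_mod_cast hR
  set m := Fintype.card ι with hm
  -- Step A
  have hA : |∑ t ∈ S, ∑ a ∈ E, ∏ i, psi L R (a i) (Y t i) - S.card * (E.card / (L : ℝ) ^ m)| ≤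
      S.card * ((R : ℝ) ^ m * ω) := by
    rw [Finset.sum_comm]
    have e1 : (S.card : ℝ) * (E.card / (L : ℝ) ^ m) = ∑ _a ∈ E, S.card * (1 / (L : ℝ)) ^ m := by
      rw [Finset.sum_const, nsmul_eq_mul, one_div, inv_pow]
      ring
    rw [e1, ← Finset.sum_sub_distrib]
    refine (Finset.abs_sum_le_sum_abs _ _).trans ?_
    refine (Finset.sum_le_card_nsmul _ _ _ fun a _ => cell_sum S Y hL hR hω h a).trans ?_
    rw [nsmul_eq_mul, ← hm]
    have hEc : (E.card : ℝ) ≤ (L : ℝ) ^ m := by
      have h1 : E ⊆ Fintype.piFinset fun _ : ι => range L := by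
        intro a ha
        rw [Fintype.mem_piFinset]
        intro i
        exact Finset.mem_range.2 (hE a ha i)
      have h2 := Finset.card_le_card h1
      rw [Fintype.card_piFinset, Finset.prod_const, Finset.card_univ, Finset.card_range] at h2
      exact_mod_cast h2
    calc (E.card : ℝ) * (S.card * (((R : ℝ) / L) ^ m * ω)) ≤
        (L : ℝ) ^ m * (S.card * (((R : ℝ) / L) ^ m * ω)) :=
          mul_le_mul_of_nonneg_right hEc (by positivity)
      _ = _ := by
        rw [div_pow]
        field_simp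
  -- Step B
  have hBs : |(((S.filter fun t => (fun i => ⌊L * Int.fract (Y t i)⌋₊) ∈ E).card : ℕ) : ℝ) -
      ∑ t ∈ S, ∑ a ∈ E, ∏ i, psi L R (a i) (Y t i)| ≤
      ∑ t ∈ S, ∑ i, (1 - psi L R ⌊L * Int.fract (Y t i)⌋₊ (Y t i)) := by
    rw [Finset.card_filter, Nat.cast_sum, ← Finset.sum_sub_distrib]
    refine (Finset.abs_sum_le_sum_abs _ _).trans (Finset.sum_le_sum fun t _ => ?_)
    have := point_le hL hR (Y t) E hE
    push_cast
    exact this
  -- Step C
  have hC : ∑ t ∈ S, ∑ i, (1 - psi L R ⌊L * Int.fract (Y t i)⌋₊ (Y t i)) ≤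
      S.card * (m * (9 * (J : ℝ) ^ 2 * L ^ 2 / R + 4 / J + 4 * ω)) := by
    rw [Finset.sum_comm]
    have h1 : ∀ i ∈ (Finset.univ : Finset ι),
        ∑ t ∈ S, (1 - psi L R ⌊L * Int.fract (Y t i)⌋₊ (Y t i)) ≤
        S.card * (9 * (J : ℝ) ^ 2 * L ^ 2 / R + 4 / J + 4 * ω) := by
      intro i _
      have h2 : ∀ t ∈ S, (1 - psi L R ⌊L * Int.fract (Y t i)⌋₊ (Y t i)) ≤
          9 * (J : ℝ) ^ 2 * L ^ 2 / R +
            (if ∃ z : ℤ, |L * Y t i - z| ≤ 1 / (6 * (J : ℝ)) then 1 else 0) := by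
        intro t _
        split_ifs with hn
        · have := psi_nonneg L R ⌊L * Int.fract (Y t i)⌋₊ (Y t i)
          have h3 : 0 ≤ 9 * (J : ℝ) ^ 2 * L ^ 2 / R := by positivity
          linarith
        · push Not at hn
          have := psi_cell hL hR hJ (y := Y t i) hn
          linarith
      refine (Finset.sum_le_sum h2).trans ?_
      rw [Finset.sum_add_distrib, Finset.sum_const, nsmul_eq_mul]
      have h3 := near_le S (fun t => Y t i) (L := L) hJ (ω := ω) (by
        intro n hn hnJ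
        have h4 := h (fun j => if j = i then n * L else 0) (by
          intro h0
          have := congrFun h0 i
          simp only [if_true, Pi.zero_apply, mul_eq_zero] at this
          rcases this with h5 | h5
          · exact hn h5
          · have : L = 0 := by exact_mod_cast h5
            omega) (by
          intro j
          split_ifs
          · rw [abs_mul, Nat.abs_cast]
            calc |n| * L ≤ J * L := mul_le_mul_of_nonneg_right hnJ (by positivity)
              _ ≤ R := by exact_mod_cast hJL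
          · rw [abs_zero]
            positivity)
        have e : ∀ t, ∑ j, (((if j = i then n * L else 0 : ℤ)) : ℝ) * Y t j =
            ((n * L : ℤ) : ℝ) * Y t i := by
          intro t
          rw [Finset.sum_eq_single i]
          · rw [if_pos rfl]
          · intro j _ hj
            rw [if_neg hj]
            push_cast
            ring
          · intro h0
            exact absurd (Finset.mem_univ i) h0
        simp only [e] at h4
        exact h4)
      rw [Finset.card_filter, Nat.cast_sum] at h3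
      push_cast at h3
      have h4 : ∑ t ∈ S, (if ∃ z : ℤ, |L * Y t i - z| ≤ 1 / (6 * (J : ℝ)) then (1 : ℝ) else 0) ≤
          S.card * (4 / J + 4 * ω) := by
        refine le_trans (le_of_eq ?_) h3
        refine Finset.sum_congr rfl fun t _ => ?_
        split_ifs <;> rfl
      linarith
    refine (Finset.sum_le_card_nsmul _ _ _ h1).trans (le_of_eq ?_)
    rw [Finset.card_univ, ← hm, nsmul_eq_mul]
    ring
  have h3 := abs_sub_le (((S.filter fun t => (fun i => ⌊L * Int.fract (Y t i)⌋₊) ∈ E).card : ℕ) : ℝ)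
    (∑ t ∈ S, ∑ a ∈ E, ∏ i, psi L R (a i) (Y t i)) (S.card * (E.card / (L : ℝ) ^ m))
  calc _ ≤ _ := h3
    _ ≤ S.card * (m * (9 * (J : ℝ) ^ 2 * L ^ 2 / R + 4 / J + 4 * ω)) + S.card * ((R : ℝ) ^ m * ω) :=
      add_le_add (hBs.trans hC) hA
    _ = _ := by ring

end

end Pool.Agent.V5helper45.RB
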