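import Pool.Agent.V5helper45.RB.Freq
import Pool.Agent.V5helper45.RB.TV

/-!
# The joint law of the digits of algebraic numbers in a random base
-/

set_option autoImplicit false

namespace Pool.Agent.V5helper45.RB

open Finset Polynomial Filter
open Pool.Agent.Y309.VK (ea ea_zero ea_add ea_sum ea_conj)

lemma ev_rpow {a b : ℝ} (hab : a < b) (K : ℝ) :
    ∀ᶠ N : ℕ in atTop, K * (N : ℝ) ^ a ≤ (N : ℝ) ^ b := by
  have h1 : Tendsto (fun x : ℝ => x ^ (b - a)) atTop atTop := tendsto_rpow_atTop (by linarith)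
  have h2 := (tendsto_natCast_atTop_atTop (R := ℝ)).eventually (h1.eventually_ge_atTop K)
  filter_upwards [h2, eventually_ge_atTop 1] with N hN hN1
  have hN' : (0 : ℝ) < N := by exact_mod_cast hN1
  have h3 : (N : ℝ) ^ b = (N : ℝ) ^ (b - a) * (N : ℝ) ^ a := by
    rw [← Real.rpow_add hN']
    congr 1
    ring
  rw [h3]
  exact mul_le_mul_of_nonneg_right hN (Real.rpow_nonneg hN'.le _)

lemma ev_exp {ρ : ℝ} (hρ : 0 < ρ) (K : ℝ) :
    ∀ᶠ N : ℕ in atTop, K * (N : ℝ) ≤ Real.exp ((N : ℝ) ^ ρ) := by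
  have h1 := tendsto_exp_div_rpow_atTop (1 / ρ)
  have h2 : Tendsto (fun N : ℕ => (N : ℝ) ^ ρ) atTop atTop :=
    (tendsto_rpow_atTop hρ).comp tendsto_natCast_atTop_atTop
  have h3 := h2.eventually (h1.eventually_ge_atTop K)
  filter_upwards [h3, eventually_ge_atTop 1] with N hN hN1
  have hN' : (0 : ℝ) < N := by exact_mod_cast hN1
  have h4 : ((N : ℝ) ^ ρ) ^ (1 / ρ) = N := by
    rw [← Real.rpow_mul hN'.le, mul_one_div_cancel hρ.ne', Real.rpow_one]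
  rw [h4, le_div_iff₀ hN'] at hN
  exact hN

lemma errt {m N J R L : ℕ} {u v z : ℝ} (hu1 : 1 ≤ u) (fB : 8 * u ≤ v)
    (fA : 200 * ((m : ℝ) + 1) * N ≤ Real.exp u) (fC : (2 * (m : ℝ) + 4) * (N * v) ≤ z)
    (hN' : (1 : ℝ) ≤ N) (hR1 : Real.exp v ≤ R) (hR2 : (R : ℝ) ≤ Real.exp (2 * v))
    (hJ1 : Real.exp (2 * u) ≤ J) (hJ2 : (J : ℝ) ≤ 2 * Real.exp (2 * u)) (hL0 : (0 : ℝ) < L)
    (hLu : (L : ℝ) ≤ Real.exp u) :
    (R : ℝ) ^ (m * N) * (3 * Real.exp (-z)) +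
      ((m * N : ℕ) : ℝ) * (9 * (J : ℝ) ^ 2 * L ^ 2 / R + 4 / J + 4 * (3 * Real.exp (-z))) ≤
      Real.exp (-u) := by
  have hv8 : 8 ≤ v := by linarith
  have hRpos : (0 : ℝ) < R := lt_of_lt_of_le (Real.exp_pos _) hR1
  have hmN : (m * N : ℝ) ≤ Real.exp u / 200 := by
    rw [le_div_iff₀ (by norm_num)]
    refine le_trans ?_ fA
    nlinarith [(Nat.cast_nonneg m : (0 : ℝ) ≤ m)]
  have hmN0 : 0 ≤ (m * N : ℝ) := by positivity
  have hE2 : Real.exp (-u) = Real.exp u * Real.exp (-(2 * u)) := by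
    rw [← Real.exp_add]
    congr 1
    ring
  have hz2u : 2 * u ≤ z := by
    refine le_trans ?_ fC
    have h1 : u ≤ N * v := by nlinarith
    have h2 : 0 ≤ (m : ℝ) * (N * v) := by positivity
    nlinarith
  have t1 : (R : ℝ) ^ (m * N) * (3 * Real.exp (-z)) ≤ 1 / 2 * Real.exp (-u) := by
    have h1 : (R : ℝ) ^ (m * N) ≤ Real.exp (2 * (m : ℝ) * (N * v)) := by
      calc (R : ℝ) ^ (m * N) ≤ (Real.exp (2 * v)) ^ (m * N) :=
            pow_le_pow_left₀ (Nat.cast_nonneg _) hR2 _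
        _ = _ := by
            rw [← Real.exp_nat_mul]
            congr 1
            push_cast
            ring
    have h2 : (6 : ℝ) ≤ Real.exp (2 * v) := by
      have := Real.add_one_le_exp (2 * v)
      linarith
    have h3 : Real.exp (2 * (m : ℝ) * (N * v)) * Real.exp (2 * v) * Real.exp (-z) ≤ Real.exp (-u) := by
      rw [← Real.exp_add, ← Real.exp_add]
      apply Real.exp_le_exp.2
      have h4 : v ≤ N * v := by nlinarith
      nlinarith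
    calc (R : ℝ) ^ (m * N) * (3 * Real.exp (-z)) ≤
        Real.exp (2 * (m : ℝ) * (N * v)) * (3 * Real.exp (-z)) :=
          mul_le_mul_of_nonneg_right h1 (by positivity)
      _ = 1 / 2 * (Real.exp (2 * (m : ℝ) * (N * v)) * 6 * Real.exp (-z)) := by ring
      _ ≤ 1 / 2 * (Real.exp (2 * (m : ℝ) * (N * v)) * Real.exp (2 * v) * Real.exp (-z)) := by
          gcongr
      _ ≤ _ := by gcongr
  have t2 : 9 * (J : ℝ) ^ 2 * L ^ 2 / R ≤ 36 * Real.exp (-(2 * u)) := by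
    rw [div_le_iff₀ hRpos]
    calc 9 * (J : ℝ) ^ 2 * (L : ℝ) ^ 2 ≤ 9 * (2 * Real.exp (2 * u)) ^ 2 * (Real.exp u) ^ 2 := by gcongr
      _ = 36 * (Real.exp (2 * u) * Real.exp (2 * u) * (Real.exp u * Real.exp u)) := by ring
      _ = 36 * Real.exp (-(2 * u)) * Real.exp (8 * u) := by
          rw [← Real.exp_add, ← Real.exp_add, ← Real.exp_add, mul_assoc, ← Real.exp_add]
          congr 2
          ring
      _ ≤ 36 * Real.exp (-(2 * u)) * Real.exp v := by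
          gcongr
      _ ≤ _ := by gcongr
  have t3 : 4 / (J : ℝ) ≤ 4 * Real.exp (-(2 * u)) := by
    rw [Real.exp_neg, ← div_eq_mul_inv]
    exact div_le_div_of_nonneg_left (by norm_num) (Real.exp_pos _) hJ1
  have t4 : 4 * (3 * Real.exp (-z)) ≤ 12 * Real.exp (-(2 * u)) := by
    have : Real.exp (-z) ≤ Real.exp (-(2 * u)) := Real.exp_le_exp.2 (by linarith)
    linarith
  have t5 : ((m * N : ℕ) : ℝ) * (9 * (J : ℝ) ^ 2 * L ^ 2 / R + 4 / J + 4 * (3 * Real.exp (-z))) ≤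
      1 / 2 * Real.exp (-u) := by
    push_cast
    calc (m * N : ℝ) * (9 * (J : ℝ) ^ 2 * L ^ 2 / R + 4 / J + 4 * (3 * Real.exp (-z))) ≤
        (Real.exp u / 200) * (36 * Real.exp (-(2 * u)) + 4 * Real.exp (-(2 * u)) +
          12 * Real.exp (-(2 * u))) := by
          gcongr
      _ = 52 / 200 * (Real.exp u * Real.exp (-(2 * u))) := by ring
      _ = 52 / 200 * Real.exp (-u) := by rw [← hE2]
      _ ≤ _ := by
          have := Real.exp_pos (-u)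
          linarith
  linarith


lemma tvc {m N H L R J : ℕ} {B z : ℝ} (Y : ℕ → Fin m × Fin N → ℝ) (hL : 1 ≤ L) (hR : 1 ≤ R) (hJ : 1 ≤ J)
    (hJL : J * L ≤ R)
    (h : ∀ n : Fin m × Fin N → ℤ, n ≠ 0 → (∀ i, |n i| ≤ R) →
      ‖∑ t ∈ range H, ea (∑ i, (n i : ℝ) * Y t i)‖ ≤ 3 * Real.exp (-z) * H)
    (hB : (R : ℝ) ^ (m * N) * (3 * Real.exp (-z)) +
      ((m * N : ℕ) : ℝ) * (9 * (J : ℝ) ^ 2 * L ^ 2 / R + 4 / J + 4 * (3 * Real.exp (-z))) ≤ B)
    (E : Finset (Fin m × Fin N → ℕ)) (hE : ∀ a ∈ E, ∀ i, a i < L) :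
    |((((range H).filter fun t => (fun i => ⌊L * Int.fract (Y t i)⌋₊) ∈ E).card : ℕ) : ℝ) -
      H * (E.card / (L : ℝ) ^ (m * N))| ≤ H * B := by
  have h1 : (0 : ℝ) ≤ 3 * Real.exp (-z) := by positivity
  have hmain := tv (range H) Y hL hR hJ hJL h1 (by
    intro n hn hnR
    rw [Finset.card_range]
    exact h n hn hnR) E hE
  rw [Finset.card_range, Fintype.card_prod, Fintype.card_fin, Fintype.card_fin] at hmain
  exact hmain.trans (mul_le_mul_of_nonneg_left hB (Nat.cast_nonneg _))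

/-- **The joint law of the digits in a random base.** -/
theorem law (d m : ℕ) {g : ℤ[X]} (hg : 1 ≤ g.natDegree) {ρ η : ℝ} (hρ : 0 < ρ)
    (hη : 0 < η) (hρη : ρ < 1 + η) :
    ∃ N₀ : ℕ, ∀ N : ℕ, N₀ ≤ N → ∀ H : ℕ, Real.exp ((N : ℝ) ^ (5 + η)) ≤ H → ∀ T : ℤ, ∀ L : ℕ,
      1 ≤ L → (L : ℝ) ≤ Real.exp ((N : ℝ) ^ ρ) →
      ∀ y : Fin m → ℝ, (∀ i, BddAlg d (Real.exp ((N : ℝ) ^ ρ)) (y i)) →
      LinearIndependent ℚ (Fin.cons 1 y : Fin (m + 1) → ℝ) →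
      ∀ E : Finset (Fin m × Fin N → ℕ), (∀ a ∈ E, ∀ p, a p < L) →
      |((((range H).filter fun t : ℕ => (fun p : Fin m × Fin N => ⌊L * Int.fract (y p.1 *
        ((g.eval (T + 1 + t) : ℤ) : ℝ) ^ ((p.2 : ℕ) + 1))⌋₊) ∈ E).card : ℕ) : ℝ) -
        H * (E.card / (L : ℝ) ^ (m * N))| ≤ H * Real.exp (-(N : ℝ) ^ ρ) := by
  classical
  obtain ⟨η', hη'1, hη'2, hη'3⟩ : ∃ η' : ℝ, 0 ≤ η' ∧ η' < η ∧ ρ < 1 + η' := by
    refine ⟨(max 0 (ρ - 1) + η) / 2, ?_, ?_, ?_⟩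
    · have := le_max_left 0 (ρ - 1)
      linarith
    · have : max 0 (ρ - 1) < η := max_lt hη (by linarith)
      linarith
    · have h1 := le_max_right 0 (ρ - 1)
      have h2 : ρ - 1 < η := by linarith
      linarith
  obtain ⟨ρ', hρ'1, hρ'2⟩ : ∃ ρ' : ℝ, ρ < ρ' ∧ ρ' < 1 + η' := ⟨(ρ + (1 + η')) / 2, by linarith, by linarith⟩
  obtain ⟨κ, hκ0, N₁, hN₁⟩ := freq d m hg hη'1 hη'2
  obtain ⟨Λ, hΛ⟩ : ∃ Λ : ℝ, Λ = ((max (d ^ m) 1 : ℕ) : ℝ) * Real.log |(g.leadingCoeff : ℝ)| := ⟨_, rfl⟩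
  rw [← hΛ] at hN₁
  have hg0 : g.leadingCoeff ≠ 0 := by
    rw [leadingCoeff_ne_zero]
    rintro rfl
    rw [natDegree_zero] at hg
    omega
  have hΛ0 : 0 ≤ Λ := by
    rw [hΛ]
    apply mul_nonneg (Nat.cast_nonneg _)
    apply Real.log_nonneg
    rw [← Int.cast_abs]
    exact_mod_cast Int.one_le_abs hg0
  obtain ⟨N₂, hN₂⟩ := Filter.eventually_atTop.1 (ev_exp hρ (200 * ((m : ℝ) + 1)))
  obtain ⟨N₃, hN₃⟩ := Filter.eventually_atTop.1 (ev_rpow hρ'1 8)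
  obtain ⟨N₄, hN₄⟩ := Filter.eventually_atTop.1
    (ev_rpow (show 1 + ρ' < 2 + η' by linarith) (2 * (m : ℝ) + 4))
  obtain ⟨N₅, hN₅⟩ := Filter.eventually_atTop.1
    (ev_rpow (show 1 + η' < 5 + η' by linarith) (2 * κ + Λ))
  refine ⟨max N₁ (max N₂ (max N₃ (max N₄ (max N₅ 1)))), ?_⟩
  intro N hN H hH T L hL hLu y hy hli E hE
  have hNa : N₁ ≤ N := le_of_max_le_left hN
  have hN := le_of_max_le_right hN
  have hNb : N₂ ≤ N := le_of_max_le_left hN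
  have hN := le_of_max_le_right hN
  have hNc : N₃ ≤ N := le_of_max_le_left hN
  have hN := le_of_max_le_right hN
  have hNd : N₄ ≤ N := le_of_max_le_left hN
  have hN := le_of_max_le_right hN
  have hNe : N₅ ≤ N := le_of_max_le_left hN
  have hNf : 1 ≤ N := le_of_max_le_right hN
  have hN' : (1 : ℝ) ≤ N := by exact_mod_cast hNf
  have fA := hN₂ N hNb
  have fB := hN₃ N hNc
  have fC := hN₄ N hNd
  have fD := hN₅ N hNe
  obtain ⟨u, hu⟩ : ∃ u, u = (N : ℝ) ^ ρ := ⟨_, rfl⟩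
  obtain ⟨v, hv⟩ : ∃ v, v = (N : ℝ) ^ ρ' := ⟨_, rfl⟩
  obtain ⟨z, hz⟩ : ∃ z, z = (N : ℝ) ^ (2 + η') := ⟨_, rfl⟩
  have hu1 : 1 ≤ u := by rw [hu]; exact Real.one_le_rpow hN' hρ.le
  have hNv : (N : ℝ) ^ (1 + ρ') = N * v := by
    rw [Real.rpow_add (by linarith), Real.rpow_one, hv]
  rw [← hu] at hLu hy fA fB ⊢
  rw [← hv] at fB
  rw [hNv, ← hz] at fC
  have hv8 : 8 ≤ v := by linarith
  have hu0 : 0 < Real.exp u := Real.exp_pos u
  -- fact D
  have hW1 : 1 ≤ 2 * v := by linarith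
  have fD' : κ * (2 * v) + Λ * N ≤ (N : ℝ) ^ (5 + η') := by
    refine le_trans ?_ fD
    have h1 : v ≤ (N : ℝ) ^ (1 + η') := by
      rw [hv]
      exact Real.rpow_le_rpow_of_exponent_le hN' hρ'2.le
    have h2 : (N : ℝ) ≤ (N : ℝ) ^ (1 + η') := by
      nth_rewrite 1 [← Real.rpow_one (N : ℝ)]
      exact Real.rpow_le_rpow_of_exponent_le hN' (by linarith)
    calc κ * (2 * v) + Λ * N ≤ κ * (2 * (N : ℝ) ^ (1 + η')) + Λ * (N : ℝ) ^ (1 + η') := by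
          gcongr
      _ = _ := by ring
  -- the parameters
  obtain ⟨J, hJ⟩ : ∃ J : ℕ, J = ⌈Real.exp (2 * u)⌉₊ := ⟨_, rfl⟩
  obtain ⟨R, hR⟩ : ∃ R : ℕ, R = ⌈Real.exp v⌉₊ := ⟨_, rfl⟩
  have he2 : ∀ y : ℝ, 1 ≤ y → (2 : ℝ) ≤ Real.exp y := by
    intro y hy
    have := Real.add_one_le_exp y
    linarith
  have hJ1 : Real.exp (2 * u) ≤ J := by rw [hJ]; exact Nat.le_ceil _
  have hJ2 : (J : ℝ) ≤ 2 * Real.exp (2 * u) := by
    have h1 : (J : ℝ) < Real.exp (2 * u) + 1 := by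
      rw [hJ]
      exact Nat.ceil_lt_add_one (Real.exp_pos _).le
    have h2 := he2 (2 * u) (by linarith)
    linarith
  have hR1 : Real.exp v ≤ R := by rw [hR]; exact Nat.le_ceil _
  have hR2 : (R : ℝ) ≤ Real.exp (2 * v) := by
    have h1 : (R : ℝ) < Real.exp v + 1 := by
      rw [hR]
      exact Nat.ceil_lt_add_one (Real.exp_pos _).le
    have h2 := he2 v (by linarith)
    have h3 : Real.exp (2 * v) = Real.exp v * Real.exp v := by
      rw [← Real.exp_add]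
      congr 1
      ring
    rw [h3]
    nlinarith
  have hJpos : 1 ≤ J := by
    have h2 := he2 (2 * u) (by linarith)
    have : (1 : ℝ) ≤ J := by linarith
    exact_mod_cast this
  have hRpos : 1 ≤ R := by
    have h2 := he2 v (by linarith)
    have : (1 : ℝ) ≤ R := by linarith
    exact_mod_cast this
  have hJL : J * L ≤ R := by
    have h1 : ((J * L : ℕ) : ℝ) ≤ R := by
      push_cast
      calc (J : ℝ) * L ≤ (2 * Real.exp (2 * u)) * Real.exp u := by gcongr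
        _ ≤ (Real.exp u * Real.exp (2 * u)) * Real.exp u := by
            gcongr
            exact he2 u hu1
        _ = Real.exp (4 * u) := by
            rw [← Real.exp_add, ← Real.exp_add]
            congr 1
            ring
        _ ≤ Real.exp v := Real.exp_le_exp.2 (by linarith)
        _ ≤ R := hR1
    exact_mod_cast h1
  have hL0 : (0 : ℝ) < L := by exact_mod_cast hL
  -- the frequencies
  have hyW : ∀ i, BddAlg d (Real.exp (2 * v)) (y i) := by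
    intro i
    obtain ⟨P, h1, h2, h3, h4⟩ := hy i
    refine ⟨P, h1, h2, fun i => (h3 i).trans ?_, h4⟩
    exact Real.exp_le_exp.2 (by linarith)
  have hfreq : ∀ n : Fin m × Fin N → ℤ, n ≠ 0 → (∀ i, |n i| ≤ R) →
      ‖∑ t ∈ range H, ea (∑ p, (n p : ℝ) * (y p.1 *
        ((g.eval (T + 1 + t) : ℤ) : ℝ) ^ ((p.2 : ℕ) + 1)))‖ ≤
          3 * Real.exp (-z) * H := by
    intro n hn hnR
    rw [hz]
    refine hN₁ N hNa H hH T (2 * v) hW1 fD' y hyW hli n hn ?_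
    intro p
    refine le_trans ?_ hR2
    rw [← Int.cast_abs]
    exact_mod_cast hnR p
  exact tvc (z := z) (fun t p => y p.1 *
    ((g.eval (T + 1 + t) : ℤ) : ℝ) ^ ((p.2 : ℕ) + 1)) hL hRpos hJpos hJL hfreq
    (errt hu1 (by linarith) fA fC hN' hR1 hR2 hJ1 hJ2 hL0 hLu) E hE

end Pool.Agent.V5helper45.RB
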