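import Pool.Agent.V5helper45.AB.Weyl

/-!
# The bilinear Weyl sums of degree up to `C N` for ranges of length `exp (N ^ (5 + η))`, and Weyl sums,
# with the full saving
-/

set_option autoImplicit false

namespace Pool.Agent.V5helper45.RB

open Finset Filter Polynomial
open Pool.Agent.Y957.VK
open Pool.Agent.Y309.VK (ea ea_zero ea_add ea_sum ea_conj)
open Pool.Agent.V5helper45.AB

theorem TT_fin2 {η η' : ℝ} (hη' : 0 ≤ η') (hηη : η' < η) {C θ : ℝ} (hC : 1 ≤ C) (hθ : 0 < θ)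
    (hθ1 : θ ≤ 1) :
    ∃ N₀ : ℕ, ∀ N : ℕ, N₀ ≤ N → ∀ M : ℕ, (N : ℝ) ^ (5 + η) / 5 ≤ Real.log M →
      ∀ n : ℕ, 1 ≤ n → (n : ℝ) ≤ C * N → ∀ α : ℕ → ℝ,
      (∀ q : ℕ, 1 ≤ q → (q : ℝ) ≤ (M : ℝ) ^ (θ * n) → ∀ p : ℤ, 1 / (M : ℝ) ^ n ≤ |α n * q - p|) →
      ‖TT (max n 2) M α‖ ≤ (M : ℝ) ^ 2 * Real.exp (-(N : ℝ) ^ (2 + η')) := by
  obtain ⟨N₀, hN₀⟩ := Filter.eventually_atTop.1
    ((ll_ev (sub_pos.2 hηη) hC hθ hθ1 (40960 * (C + 2) ^ 5 / θ ^ 2)).and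
      (Filter.eventually_ge_atTop 1))
  refine ⟨N₀, fun N hN M hM n hn1 hnC α hdio => ?_⟩
  obtain ⟨hK, hN1⟩ := hN₀ N hN
  obtain ⟨ℓ, hℓ⟩ : ∃ ℓ, ℓ = ll C θ N := ⟨_, rfl⟩
  obtain ⟨L, hL⟩ : ∃ L, L = Real.log M := ⟨_, rfl⟩
  rw [← hℓ] at hK
  rw [← hL] at hM
  have hN1' : (1 : ℝ) ≤ N := by exact_mod_cast hN1
  have hNp : (0 : ℝ) < N := by linarith
  have hl0 : (0 : ℝ) ≤ ℓ := Nat.cast_nonneg _
  have hC2 : (0 : ℝ) < C + 2 := by linarith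
  obtain ⟨X, hXd⟩ : ∃ X : ℝ, X = (N : ℝ) ^ η' := ⟨_, rfl⟩
  have hX1 : 1 ≤ X := by
    rw [hXd]
    exact Real.one_le_rpow hN1' hη'
  have hX0 : 0 < X := by linarith
  -- the size of `L`
  have hX : (N : ℝ) ^ (5 + η) = (N : ℝ) ^ 5 * X * (N : ℝ) ^ (η - η') := by
    rw [hXd, ← Real.rpow_natCast, ← Real.rpow_add hNp, ← Real.rpow_add hNp]
    congr 1
    push_cast
    ring
  have hN5 : (1 : ℝ) ≤ (N : ℝ) ^ 5 := one_le_pow₀ hN1'
  have hKbX : 8192 * ((C + 2) ^ 5 * ((ℓ : ℝ) + 2) ^ 6 * (N : ℝ) ^ 5) * X ≤ θ ^ 2 * L := by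
    have hKa : (40960 * (C + 2) ^ 5 / θ ^ 2) * ((ℓ : ℝ) + 2) ^ 6 * ((N : ℝ) ^ 5 * X) / 5 ≤ L := by
      refine le_trans ?_ hM
      rw [hX]
      have : (40960 * (C + 2) ^ 5 / θ ^ 2) * ((ℓ : ℝ) + 2) ^ 6 * ((N : ℝ) ^ 5 * X) ≤
          (N : ℝ) ^ (η - η') * ((N : ℝ) ^ 5 * X) := mul_le_mul_of_nonneg_right hK (by positivity)
      linarith
    have e : (40960 * (C + 2) ^ 5 / θ ^ 2) * ((ℓ : ℝ) + 2) ^ 6 * ((N : ℝ) ^ 5 * X) / 5 =
        8192 * ((C + 2) ^ 5 * ((ℓ : ℝ) + 2) ^ 6 * (N : ℝ) ^ 5) * X / θ ^ 2 := by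
      field_simp
      ring
    rw [e, div_le_iff₀ (by positivity)] at hKa
    linarith
  have hKb : 8192 * ((C + 2) ^ 5 * ((ℓ : ℝ) + 2) ^ 6 * (N : ℝ) ^ 5) ≤ θ ^ 2 * L := by
    refine le_trans ?_ hKbX
    exact le_mul_of_one_le_right (by positivity) hX1
  have hbig : (2 : ℝ) ^ 6 ≤ ((ℓ : ℝ) + 2) ^ 6 := pow_le_pow_left₀ (by norm_num) (by linarith) 6
  have hbig2 : (3 : ℝ) ^ 5 ≤ (C + 2) ^ 5 := pow_le_pow_left₀ (by norm_num) (by linarith) 5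
  have hθ2 : θ ^ 2 ≤ θ := by nlinarith
  have hLc : 12288 ≤ θ ^ 2 * L := by
    refine le_trans ?_ hKb
    calc (12288 : ℝ) ≤ 8192 * ((3 : ℝ) ^ 5 * (2 : ℝ) ^ 6 * 1) := by norm_num
      _ ≤ 8192 * ((C + 2) ^ 5 * ((ℓ : ℝ) + 2) ^ 6 * (N : ℝ) ^ 5) := by
        apply mul_le_mul_of_nonneg_left _ (by norm_num)
        exact mul_le_mul (mul_le_mul hbig2 hbig (by norm_num) (by positivity)) hN5 (by norm_num)
          (by positivity)
  have hθsq : θ ^ 2 ≤ 1 := hθ2.trans hθ1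
  have hθsq0 : 0 < θ ^ 2 := by positivity
  have hL0 : 0 < L := by
    by_contra hcon
    have : θ ^ 2 * L ≤ 0 := mul_nonpos_of_nonneg_of_nonpos hθsq0.le (not_lt.1 hcon)
    linarith
  have hL1 : 1 ≤ L := by
    have : θ ^ 2 * L ≤ 1 * L := mul_le_mul_of_nonneg_right hθsq hL0.le
    linarith
  have hM1 : 1 ≤ M := by
    by_contra hcon
    have : M = 0 := by omega
    rw [hL, this] at hL0
    simp at hL0
  -- the degree
  obtain ⟨r, hr⟩ : ∃ r, r = max n 2 := ⟨_, rfl⟩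
  rw [← hr]
  have hr2 : 2 ≤ r := hr ▸ le_max_right _ _
  have hnr : n ≤ r := hr ▸ le_max_left _ _
  have hr2n : r ≤ 2 * n := by
    rw [hr]
    exact max_le (by omega) (by omega)
  have hrn2 : (r : ℝ) ≤ n + 2 := by
    have : r ≤ n + 2 := hr ▸ max_le (by omega) (by omega)
    exact_mod_cast this
  have hrR : (r : ℝ) ≤ (C + 2) * N := by nlinarith
  have hrR1 : (r : ℝ) + 1 ≤ C * N + 3 := by linarith
  have hr2' : (2 : ℝ) ≤ r := by exact_mod_cast hr2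
  have hr2n' : (r : ℝ) ≤ 2 * n := by exact_mod_cast hr2n
  have hn1' : (1 : ℝ) ≤ n := by exact_mod_cast hn1
  have hr5 : (r : ℝ) ^ 5 ≤ (C + 2) ^ 5 * (N : ℝ) ^ 5 := by
    rw [← mul_pow]
    exact pow_le_pow_left₀ (by positivity) hrR 5
  have h1 : 8192 * ((r : ℝ) ^ 5 * ((ℓ : ℝ) + 2) ^ 6) ≤ θ ^ 2 * L := by
    refine le_trans ?_ hKb
    have : (r : ℝ) ^ 5 * ((ℓ : ℝ) + 2) ^ 6 ≤ ((C + 2) ^ 5 * (N : ℝ) ^ 5) * ((ℓ : ℝ) + 2) ^ 6 :=
      mul_le_mul_of_nonneg_right hr5 (by positivity)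
    linarith
  have h1' : 8192 * ((r : ℝ) ^ 5 * ((ℓ : ℝ) + 2) ^ 6) ≤ θ * L :=
    h1.trans (mul_le_mul_of_nonneg_right hθ2 hL0.le)
  have hKb' : 8192 * ((C + 2) ^ 5 * ((ℓ : ℝ) + 2) ^ 6 * (N : ℝ) ^ 5) * X ≤ θ * L :=
    hKbX.trans (mul_le_mul_of_nonneg_right hθ2 hL0.le)
  have hθL : θ * L ≤ 1 * L := mul_le_mul_of_nonneg_right hθ1 hL0.le
  obtain ⟨s, hs⟩ : ∃ s, s = r ^ 2 + r * (r * ℓ) := ⟨_, rfl⟩
  have hsR : (s : ℝ) = (r : ℝ) ^ 2 * (1 + ℓ) := by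
    rw [hs]
    push_cast
    ring
  have hsL : 8192 * (s : ℝ) ≤ θ * L := by
    refine le_trans ?_ h1'
    rw [hsR]
    have hl2 : (1 : ℝ) + ℓ ≤ ((ℓ : ℝ) + 2) ^ 6 := by
      calc (1 : ℝ) + ℓ ≤ (ℓ : ℝ) + 2 := by linarith
        _ = ((ℓ : ℝ) + 2) ^ 1 := (pow_one _).symm
        _ ≤ ((ℓ : ℝ) + 2) ^ 6 := pow_le_pow_right₀ (by linarith) (by norm_num)
    have hr25 : (r : ℝ) ^ 2 ≤ (r : ℝ) ^ 5 := pow_le_pow_right₀ (by linarith) (by norm_num)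
    have : (r : ℝ) ^ 2 * (1 + ℓ) ≤ (r : ℝ) ^ 5 * ((ℓ : ℝ) + 2) ^ 6 :=
      mul_le_mul hr25 hl2 (by positivity) (by positivity)
    linarith
  have hs0 : (0 : ℝ) ≤ s := Nat.cast_nonneg _
  apply core (m := r * ℓ) (L := L) (θ := θ) hr2 hM1 hL hn1 hnr hθ hL0 hdio
  · have := qA hr2' hl0 hr2n' h1'
    push_cast
    linarith
  · rw [← hs]
    have := qB hs0 (by linarith) hr2n' hsL
    linarith
  · have := qF hC hθ hr2 hrR1 hℓ
    have h2 : θ * r ≤ θ * (2 * n) := mul_le_mul_of_nonneg_left hr2n' hθ.le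
    linarith
  · rw [← hs]
    exact qC hn1' hL1 (by linarith) hLc
  · rw [← hs]
    have hq := qD (Z := (N : ℝ) ^ 2) (T := θ * L / X) hC hN1' hr2' hl0 hr2n' hrR hsR (by positivity)
      le_rfl (by rw [le_div_iff₀ hX0]; exact hKb')
    have hZ : (N : ℝ) ^ (2 + η') = (N : ℝ) ^ 2 * X := by
      rw [hXd, ← Real.rpow_natCast, ← Real.rpow_add hNp]
      congr 1
    rw [hZ]
    have h3 := mul_le_mul_of_nonneg_right hq hX0.le
    calc (N : ℝ) ^ 2 * X * (4 * (s : ℝ) ^ 2) = (N : ℝ) ^ 2 * (4 * (s : ℝ) ^ 2) * X := by ring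
      _ ≤ n * (θ * L / X) / 2 * X := h3
      _ = θ * n * L / 2 := by field_simp

/-- Weyl sums of degree at most `C N` over intervals of length at least `exp (N ^ (5 + η))` -/
theorem weyl2 {η η' : ℝ} (hη' : 0 ≤ η') (hηη : η' < η) {C A : ℝ} (hC : 1 ≤ C) (hA : 1 ≤ A) :
    ∃ N₀ : ℕ, ∀ N : ℕ, N₀ ≤ N → ∀ H : ℕ, Real.exp ((N : ℝ) ^ (5 + η)) ≤ H → ∀ (T : ℝ) (F : ℝ[X]),
      1 ≤ F.natDegree → (F.natDegree : ℝ) ≤ C * N →
      (∀ q : ℕ, 1 ≤ q → ∀ p : ℤ,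
        Real.exp (-(N : ℝ) ^ (5 + η')) / (q : ℝ) ^ A ≤ |F.leadingCoeff * q - p|) →
      ‖∑ i ∈ range H, ea (F.eval (T + i))‖ ≤ 3 * H * Real.exp (-(N : ℝ) ^ (2 + η')) := by
  have hA0 : 0 < A := by linarith
  obtain ⟨N₀, hN₀⟩ := TT_fin2 (θ := 1 / (2 * A)) hη' hηη hC (by positivity) (by
    rw [div_le_one (by positivity)]
    linarith)
  have hlim : Tendsto (fun N : ℕ => (N : ℝ) ^ (η - η')) atTop atTop :=
    (tendsto_rpow_atTop (sub_pos.2 hηη)).comp tendsto_natCast_atTop_atTop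
  obtain ⟨N₁, hN₁⟩ := Filter.eventually_atTop.1 (hlim.eventually_ge_atTop 10)
  refine ⟨max N₀ (max 2 N₁), fun N hN H hH T F hF1 hF2 hdio => ?_⟩
  have hN1 : N₀ ≤ N := le_of_max_le_left hN
  have hN2 : 2 ≤ N := le_of_max_le_left (le_of_max_le_right hN)
  have hN3 : N₁ ≤ N := le_of_max_le_right (le_of_max_le_right hN)
  have hten : 10 ≤ (N : ℝ) ^ (η - η') := hN₁ N hN3
  have hN2' : (2 : ℝ) ≤ N := by exact_mod_cast hN2
  have hNp : (0 : ℝ) < N := by linarith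
  have hX10 : 10 * (N : ℝ) ^ (5 + η') ≤ (N : ℝ) ^ (5 + η) := by
    have e : (N : ℝ) ^ (5 + η) = (N : ℝ) ^ (η - η') * (N : ℝ) ^ (5 + η') := by
      rw [← Real.rpow_add hNp]
      congr 1
      ring
    rw [e]
    exact mul_le_mul_of_nonneg_right hten (by positivity)
  have hX : (N : ℝ) ^ 5 ≤ (N : ℝ) ^ (5 + η') := by
    rw [← Real.rpow_natCast]
    apply Real.rpow_le_rpow_of_exponent_le (by linarith)
    push_cast
    linarith
  have hX32 : 32 ≤ (N : ℝ) ^ 5 := by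
    calc (32 : ℝ) = 2 ^ 5 := by norm_num
      _ ≤ (N : ℝ) ^ 5 := pow_le_pow_left₀ (by norm_num) hN2' 5
  have hH0 : (0 : ℝ) < H := lt_of_lt_of_le (Real.exp_pos _) hH
  have hH1 : 1 ≤ H := by exact_mod_cast hH0
  have hlogH : (N : ℝ) ^ (5 + η) ≤ Real.log H := by
    rw [Real.le_log_iff_exp_le hH0]
    exact hH
  obtain ⟨M, hM⟩ : ∃ M, M = Nat.sqrt (Nat.sqrt H) := ⟨_, rfl⟩
  have hM1 : 1 ≤ M := by
    rw [hM]
    exact Nat.sqrt_pos.2 (Nat.sqrt_pos.2 hH1)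
  have hM0 : (0 : ℝ) < M := by exact_mod_cast hM1
  have hM4 : M ^ 4 ≤ H := by
    have h1 : M ^ 2 ≤ Nat.sqrt H := by rw [hM]; exact Nat.sqrt_le' _
    calc M ^ 4 = (M ^ 2) ^ 2 := by ring
      _ ≤ (Nat.sqrt H) ^ 2 := Nat.pow_le_pow_left h1 2
      _ ≤ H := Nat.sqrt_le' _
  have hM4' : H < (M + 1) ^ 4 := by
    have h1 : Nat.sqrt H < (M + 1) ^ 2 := by rw [hM]; exact Nat.lt_succ_sqrt' _
    have h2 : H < (Nat.sqrt H + 1) ^ 2 := Nat.lt_succ_sqrt' _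
    calc H < (Nat.sqrt H + 1) ^ 2 := h2
      _ ≤ ((M + 1) ^ 2) ^ 2 := Nat.pow_le_pow_left h1 2
      _ = (M + 1) ^ 4 := by ring
  have hlogM : (N : ℝ) ^ (5 + η) / 5 ≤ Real.log M := by
    have h1 : Real.log H ≤ Real.log ((M + 1 : ℕ) ^ 4 : ℕ) :=
      Real.log_le_log hH0 (by exact_mod_cast hM4'.le)
    have h2 : Real.log ((M + 1 : ℕ) ^ 4 : ℕ) = 4 * Real.log (M + 1) := by
      push_cast
      rw [Real.log_pow]
      norm_num
    have h3 : Real.log ((M : ℝ) + 1) ≤ Real.log (2 * M) := by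
      apply Real.log_le_log (by positivity)
      have : (1 : ℝ) ≤ M := by exact_mod_cast hM1
      linarith
    have h4 : Real.log (2 * M) = Real.log 2 + Real.log M :=
      Real.log_mul (by norm_num) hM0.ne'
    have h5 := Real.log_two_lt_d9
    norm_num at h5
    linarith
  have hκ : (N : ℝ) ^ (5 + η') ≤ Real.log M / 2 := by linarith
  obtain ⟨n, hn⟩ : ∃ n, n = F.natDegree := ⟨_, rfl⟩
  rw [← hn] at hF1 hF2
  have hn1' : (1 : ℝ) ≤ n := by exact_mod_cast hF1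
  have hr : F.natDegree ≤ max n 2 := by rw [← hn]; exact le_max_left _ _
  have hTT : ∀ t : ℝ, ‖TT (max n 2) M (fun j => (taylor t F).coeff j)‖ ≤
      (M : ℝ) ^ 2 * Real.exp (-(N : ℝ) ^ (2 + η')) := by
    intro t
    apply hN₀ N hN1 M hlogM n hF1 hF2
    intro q hq hqM p
    have hq1 : (1 : ℝ) ≤ q := by exact_mod_cast hq
    have h1 : (taylor t F).coeff n = F.leadingCoeff := by
      rw [hn]
      have := leadingCoeff_taylor t F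
      rw [← this, leadingCoeff, natDegree_taylor]
    simp only [h1]
    refine le_trans ?_ (hdio q hq p)
    have h2 : (q : ℝ) ^ A ≤ (M : ℝ) ^ ((n : ℝ) / 2) := by
      calc (q : ℝ) ^ A ≤ ((M : ℝ) ^ (1 / (2 * A) * n)) ^ A :=
            Real.rpow_le_rpow (by positivity) hqM hA0.le
        _ = (M : ℝ) ^ ((n : ℝ) / 2) := by
          rw [← Real.rpow_mul hM0.le]
          congr 1
          field_simp
    have h3 : Real.exp ((N : ℝ) ^ (5 + η')) ≤ (M : ℝ) ^ ((n : ℝ) / 2) := by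
      rw [Real.rpow_def_of_pos hM0]
      apply Real.exp_le_exp.2
      have : 0 ≤ Real.log M := le_trans (by positivity) hlogM
      nlinarith
    have h4 : (M : ℝ) ^ n = (M : ℝ) ^ ((n : ℝ) / 2) * (M : ℝ) ^ ((n : ℝ) / 2) := by
      rw [← Real.rpow_add hM0, ← Real.rpow_natCast]
      congr 1
      ring
    have h5 : 0 < (M : ℝ) ^ ((n : ℝ) / 2) := Real.rpow_pos_of_pos hM0 _
    have h6 : 0 < (q : ℝ) ^ A := Real.rpow_pos_of_pos (by linarith) _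
    rw [Real.exp_neg, h4, div_le_div_iff₀ (by positivity) h6, one_mul]
    calc (q : ℝ) ^ A ≤ (M : ℝ) ^ ((n : ℝ) / 2) := h2
      _ = 1 * (M : ℝ) ^ ((n : ℝ) / 2) := (one_mul _).symm
      _ ≤ ((Real.exp ((N : ℝ) ^ (5 + η')))⁻¹ * (M : ℝ) ^ ((n : ℝ) / 2)) * (M : ℝ) ^ ((n : ℝ) / 2) := by
        apply mul_le_mul_of_nonneg_right _ h5.le
        rw [inv_mul_eq_div, le_div_iff₀ (Real.exp_pos _), one_mul]
        exact h3
      _ = _ := by ring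
  have hmain := shiftTT F hr hM1 T H hTT
  refine hmain.trans ?_
  have e1 : (M : ℝ) ^ 2 * Real.exp (-(N : ℝ) ^ (2 + η')) / (M : ℝ) ^ 2 =
      Real.exp (-(N : ℝ) ^ (2 + η')) := by field_simp
  rw [e1]
  have e2 : (M : ℝ) ^ 2 ≤ H * Real.exp (-(N : ℝ) ^ (2 + η')) := by
    have h1 : (N : ℝ) ^ (2 + η') ≤ (N : ℝ) ^ (5 + η) / 2 := by
      have : (N : ℝ) ^ (2 + η') ≤ (N : ℝ) ^ (5 + η') := by
        apply Real.rpow_le_rpow_of_exponent_le (by linarith)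
        linarith
      have h2 : 0 ≤ (N : ℝ) ^ (5 + η') := by positivity
      linarith
    have h2 : ((M : ℝ) ^ 2) ^ 2 ≤ (H * Real.exp (-(N : ℝ) ^ (2 + η'))) ^ 2 := by
      calc ((M : ℝ) ^ 2) ^ 2 = (M : ℝ) ^ 4 := by ring
        _ ≤ (H : ℝ) := by exact_mod_cast hM4
        _ = (H : ℝ) * (Real.exp ((N : ℝ) ^ (5 + η)) * Real.exp (-(N : ℝ) ^ (5 + η))) := by
          rw [← Real.exp_add, add_neg_cancel, Real.exp_zero, mul_one]
        _ ≤ H * (H * Real.exp (-(N : ℝ) ^ (5 + η))) := by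
          apply mul_le_mul_of_nonneg_left _ hH0.le
          exact mul_le_mul_of_nonneg_right hH (Real.exp_pos _).le
        _ ≤ H * (H * Real.exp (-(2 * (N : ℝ) ^ (2 + η')))) := by
          apply mul_le_mul_of_nonneg_left _ hH0.le
          apply mul_le_mul_of_nonneg_left _ hH0.le
          apply Real.exp_le_exp.2
          linarith
        _ = (H * Real.exp (-(N : ℝ) ^ (2 + η'))) ^ 2 := by
          rw [mul_pow, ← Real.exp_nat_mul]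
          push_cast
          ring_nf
    exact le_of_pow_le_pow_left₀ (by norm_num) (by positivity) h2
  linarith

end Pool.Agent.V5helper45.RB
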